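import Pool.Agent.K9h26.GH.Coord

set_option autoImplicit false

/-!
The terms of an exponential polynomial with rational coefficients in the new coordinate.
-/

namespace Pool.Agent.K9h26.GH

open Complex Filter Topology Bornology
open Pool.Agent.K9h26.GE (U Us U_open U_preconnected U_nonempty U_mono)

lemma eval_rev (p : Polynomial ℂ) {x : ℂ} (hx : x ≠ 0) :
    p.eval x = p.reverse.eval x⁻¹ * x ^ p.natDegree := by
  letI := invertibleOfNonzero hx
  have := Polynomial.eval₂_reverse_mul_pow (RingHom.id ℂ) x p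
  rw [Polynomial.eval₂_id, Polynomial.eval₂_id, invOf_eq_inv] at this
  exact this.symm

lemma rat_asy (p q : Polynomial ℂ) (hq : q ≠ 0) (α : ℤ)
    (hd : (p.natDegree : ℤ) - q.natDegree ≤ α) :
    ∃ A B : ℂ, (A = 0 ↔ p = 0 ∨ (p.natDegree : ℤ) - q.natDegree < α) ∧
      Tendsto (fun x => (p.eval x / (q.eval x * x ^ α) - A) * x) (cobounded ℂ) (𝓝 B) := by
  obtain ⟨k, hk⟩ := Int.eq_ofNat_of_zero_le (sub_nonneg.2 hd)
  set Φ : ℂ → ℂ := fun y => y ^ k * (p.reverse.eval y / q.reverse.eval y) with hΦ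
  have hq0 : q.reverse.eval 0 ≠ 0 := by
    rw [← Polynomial.coeff_zero_eq_eval_zero, Polynomial.coeff_zero_reverse]
    exact Polynomial.leadingCoeff_ne_zero.2 hq
  have hp0 : p.reverse.eval 0 = p.leadingCoeff := by
    rw [← Polynomial.coeff_zero_eq_eval_zero, Polynomial.coeff_zero_reverse]
  have hder : DifferentiableAt ℂ Φ 0 := by
    apply DifferentiableAt.mul (by fun_prop)
    exact (p.reverse.differentiable 0).div (q.reverse.differentiable 0) hq0
  refine ⟨Φ 0, deriv Φ 0, ?_, ?_⟩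
  · simp only [hΦ]
    rw [hp0]
    constructor
    · intro h
      rcases mul_eq_zero.1 h with h1 | h1
      · right
        have : k ≠ 0 := by rintro rfl; simp at h1
        omega
      · left
        rw [div_eq_zero_iff] at h1
        exact Polynomial.leadingCoeff_eq_zero.1 (h1.resolve_right hq0)
    · rintro (h | h)
      · rw [h]; simp
      · have : k ≠ 0 := by omega
        rw [zero_pow this, zero_mul]
  · have h1 := hasDerivAt_iff_tendsto_slope.1 hder.hasDerivAt
    have h2 : Tendsto (fun x : ℂ => x⁻¹) (cobounded ℂ) (𝓝[≠] 0) := by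
      rw [tendsto_nhdsWithin_iff]
      refine ⟨tendsto_inv₀_cobounded, ?_⟩
      filter_upwards [eventually_ne_cobounded (0 : ℂ)] with x hx
      exact inv_ne_zero hx
    refine (h1.comp h2).congr' ?_
    filter_upwards [eventually_ne_cobounded (0 : ℂ)] with x hx
    simp only [Function.comp, slope_def_field, sub_zero, div_inv_eq_mul]
    congr 1
    congr 1
    simp only [hΦ]
    have e1 : α = (p.natDegree : ℤ) - q.natDegree + k := by omega
    rw [eval_rev p hx, eval_rev q hx, e1, zpow_add₀ hx, zpow_sub₀ hx, zpow_natCast, zpow_natCast,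
      zpow_natCast]
    have h3 : x ^ p.natDegree ≠ 0 := pow_ne_zero _ hx
    have h4 : x ^ q.natDegree ≠ 0 := pow_ne_zero _ hx
    have h5 : x ^ k ≠ 0 := pow_ne_zero _ hx
    rcases eq_or_ne (q.reverse.eval x⁻¹) 0 with h6 | h6
    · rw [h6]; simp
    · rw [inv_pow]
      field_simp

/-- the leading frequency -/
lemma top_term (p q : Polynomial ℂ) (hq : q ≠ 0) (α : ℤ)
    (hd : (p.natDegree : ℤ) - q.natDegree ≤ α) {M : ℝ} (hM : 0 < M) {u : ℂ} (hu : u ≠ 0) :
    ∃ A B : ℂ, (A = 0 ↔ p = 0 ∨ (p.natDegree : ℤ) - q.natDegree < α) ∧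
      ∀ T : ℝ, Tendsto (fun s => (p.eval (u * gg α M s) / q.eval (u * gg α M s) *
        exp (M * gg α M s) - A * exp s) * s / exp s) (St T) (𝓝 B) := by
  obtain ⟨A, B, hA, hB⟩ := rat_asy p q hq α hd
  have huα : u ^ α ≠ 0 := zpow_ne_zero _ hu
  refine ⟨A * u ^ α, A * u ^ α * 0 + u ^ α * 1 * B * (M / u), ?_, fun T => ?_⟩
  · rw [mul_eq_zero, or_iff_left huα]
    exact hA
  · have hx : Tendsto (fun s => u * gg α M s) (St T) (cobounded ℂ) := by
      exact (tendsto_mul_left_cobounded hu).comp (gg_cob α hM T)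
    have hρ := hB.comp hx
    have h1 := ((G_lim α hM T).const_mul (A * u ^ α)).add
      (((((G_one α hM T).const_mul (u ^ α)).mul hρ)).mul ((s_gg α hM T).div_const u))
    refine h1.congr' ?_
    filter_upwards [s_ne T, gg_ne α hM T] with s hs hg
    simp only [Function.comp]
    have h2 : u * gg α M s ≠ 0 := mul_ne_zero hu hg
    have h3 : (u * gg α M s) ^ α ≠ 0 := zpow_ne_zero _ h2
    have h4 : exp s ≠ 0 := exp_ne_zero s
    have h5 : p.eval (u * gg α M s) / q.eval (u * gg α M s) =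
        p.eval (u * gg α M s) / (q.eval (u * gg α M s) * (u * gg α M s) ^ α) *
          (u ^ α * gg α M s ^ α) := by
      rw [← mul_zpow]
      rcases eq_or_ne (q.eval (u * gg α M s)) 0 with h6 | h6
      · rw [h6]; simp
      · field_simp
    rw [h5]
    generalize p.eval (u * gg α M s) / (q.eval (u * gg α M s) * (u * gg α M s) ^ α) = φ
    generalize exp (M * gg α M s) = E
    generalize gg α M s ^ α = Gα
    field_simp
    ring

lemma exp_lim {M : ℝ} (hM : 0 < M) {c : ℝ} (hc : 0 < c) (C T : ℝ) :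
    Tendsto (fun s : ℂ => Real.exp (-c * s.re + C * ‖ell M s‖)) (St T) (𝓝 0) := by
  apply Real.tendsto_exp_atBot.comp
  have h1 : Tendsto (fun s : ℂ => -(c / 2) * s.re) (St T) atBot :=
    (st_re T).const_mul_atTop_of_neg (by linarith)
  refine tendsto_atBot_mono' _ ?_ h1
  have h2 : ∀ᶠ s in St T, ‖ell M s‖ / ‖s‖ ≤ c / (4 * (|C| + 1)) :=
    (ell_one hM T).eventually_le_const (by positivity)
  filter_upwards [h2, st_pos T 1, st_im T, st_pos T |T|] with s h3 h4 h5 h6
  have hn : 0 < ‖s‖ := lt_of_lt_of_le (by linarith) (re_le_norm s)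
  have h7 : ‖s‖ ≤ 2 * s.re := by
    have h8 := norm_le_abs_re_add_abs_im s
    rw [abs_of_pos (by linarith : 0 < s.re)] at h8
    have := le_abs_self T
    linarith
  rw [div_le_div_iff₀ hn (by positivity)] at h3
  have h9 : (|C| + 1) * ‖ell M s‖ ≤ c / 2 * s.re := by nlinarith
  have h10 : C * ‖ell M s‖ ≤ (|C| + 1) * ‖ell M s‖ := by
    apply mul_le_mul_of_nonneg_right _ (norm_nonneg _)
    linarith [le_abs_self C]
  linarith

/-- the other frequencies -/
lemma low_term (α : ℤ) {M : ℝ} (hM : 0 < M) {ν : ℂ} (hν : ν.re < M) (k : ℕ) (T : ℝ) :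
    Tendsto (fun s => gg α M s ^ k * exp (ν * gg α M s) * s / exp s) (St T) (𝓝 0) := by
  have hMc : (M : ℂ) ≠ 0 := by exact_mod_cast hM.ne'
  set c : ℝ := 1 - ν.re / M with hc
  have hc0 : 0 < c := by
    rw [hc, sub_pos, div_lt_one hM]
    exact hν
  set C₁ : ℝ := ‖ν / M‖ * (|(α : ℝ)| + (α : ℝ) ^ 2) with hC₁
  have h1 := (exp_lim hM hc0 (C₁ + (k + 1)) T).const_mul
    (2 ^ k * M * Real.exp (|ν.im| / M * |T|))
  rw [mul_zero] at h1
  apply squeeze_zero_norm' _ h1
  have hw2 : ∀ᶠ s in St T, ‖ww α M s‖ ≤ 1 := by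
    have := (ww_lim α hM T).norm
    rw [norm_zero] at this
    exact this.eventually_le_const one_pos
  filter_upwards [s_ne T, hw2, st_im T, (st_norm T).eventually_ge_atTop 1] with s hs h2 h3 h4
  have hn : 0 < ‖s‖ := norm_pos_iff.2 hs
  have e0 := norm_le_ell hM hs
  have e1 : ‖gg α M s‖ ≤ 2 * Real.exp ‖ell M s‖ := by
    rw [gg_eq α M hs, norm_mul, norm_div, norm_real, Real.norm_eq_abs, abs_of_pos hM]
    have h5 : ‖1 + ww α M s‖ ≤ 2 := by
      refine (norm_add_le _ _).trans ?_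
      rw [norm_one]
      linarith
    have h6 : ‖s‖ / M ≤ Real.exp ‖ell M s‖ := by
      rw [div_le_iff₀ hM]
      linarith
    calc ‖s‖ / M * ‖1 + ww α M s‖ ≤ Real.exp ‖ell M s‖ * 2 :=
          mul_le_mul h6 h5 (norm_nonneg _) (Real.exp_pos _).le
      _ = _ := by ring
  have e2 : ‖gg α M s ^ k‖ * ‖s‖ ≤ 2 ^ k * M * Real.exp ((k + 1) * ‖ell M s‖) := by
    rw [norm_pow]
    have h5 : ‖gg α M s‖ ^ k ≤ 2 ^ k * Real.exp (k * ‖ell M s‖) := by
      have := pow_le_pow_left₀ (norm_nonneg _) e1 k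
      rwa [mul_pow, ← Real.exp_nat_mul] at this
    calc ‖gg α M s‖ ^ k * ‖s‖ ≤ (2 ^ k * Real.exp (k * ‖ell M s‖)) * (M * Real.exp ‖ell M s‖) :=
          mul_le_mul h5 e0 hn.le (by positivity)
      _ = _ := by rw [add_mul, one_mul, Real.exp_add]; ring
  have hα : ‖(α : ℂ)‖ = |(α : ℝ)| := by
    rw [← Complex.ofReal_intCast, norm_real, Real.norm_eq_abs]
  have e3 : (ν * gg α M s - s).re ≤ -c * s.re + |ν.im| / M * |T| + C₁ * ‖ell M s‖ := by
    have h5 : ν * gg α M s - s = (ν / M - 1) * s +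
        ν / M * (-(α * ell M s) + α ^ 2 * ell M s / s) := by
      unfold gg
      field_simp
      ring
    rw [h5, add_re]
    have h6 : (ν / M * (-(α * ell M s) + α ^ 2 * ell M s / s)).re ≤ C₁ * ‖ell M s‖ := by
      refine (re_le_norm _).trans ?_
      rw [norm_mul, hC₁, mul_assoc]
      apply mul_le_mul_of_nonneg_left _ (norm_nonneg _)
      refine (norm_add_le _ _).trans ?_
      rw [norm_neg, norm_mul, norm_div, norm_mul, norm_pow, hα, add_mul, sq_abs]
      exact add_le_add le_rfl (div_le_self (by positivity) h4)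
    have h7 : ((ν / M - 1) * s).re ≤ -c * s.re + |ν.im| / M * |T| := by
      rw [mul_re, sub_re, sub_im, one_re, one_im, div_ofReal_re, div_ofReal_im, hc]
      have h8 : -((ν.im / M - 0) * s.im) ≤ |ν.im| / M * |T| := by
        rw [sub_zero]
        refine (neg_le_abs _).trans ?_
        rw [abs_mul, abs_div, abs_of_pos hM]
        exact mul_le_mul_of_nonneg_left (h3.trans (le_abs_self T)) (by positivity)
      linarith
    linarith
  have e4 : ‖gg α M s ^ k * exp (ν * gg α M s) * s / exp s‖ =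
      ‖gg α M s ^ k‖ * ‖s‖ * Real.exp (ν * gg α M s - s).re := by
    rw [← norm_exp, exp_sub, norm_div, norm_div, norm_mul, norm_mul]
    ring
  rw [e4]
  calc ‖gg α M s ^ k‖ * ‖s‖ * Real.exp (ν * gg α M s - s).re ≤
      (2 ^ k * M * Real.exp ((k + 1) * ‖ell M s‖)) *
        Real.exp (-c * s.re + |ν.im| / M * |T| + C₁ * ‖ell M s‖) :=
        mul_le_mul e2 (Real.exp_le_exp.2 e3) (Real.exp_pos _).le (by positivity)
    _ = 2 ^ k * M * Real.exp (|ν.im| / M * |T|) *
        Real.exp (-c * s.re + (C₁ + (k + 1)) * ‖ell M s‖) := by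
        have : -c * s.re + |ν.im| / M * |T| + C₁ * ‖ell M s‖ =
          -c * s.re + (C₁ + (k + 1)) * ‖ell M s‖ + |ν.im| / M * |T| - (k + 1) * ‖ell M s‖ := by ring
        rw [this, Real.exp_sub, Real.exp_add]
        field_simp

lemma low_rat (p q : Polynomial ℂ) (hq : q ≠ 0) (α : ℤ) {M : ℝ} (hM : 0 < M) {u : ℂ} (hu : u ≠ 0)
    {ν : ℂ} (hν : ν.re < M) (T : ℝ) :
    Tendsto (fun s => p.eval (u * gg α M s) / q.eval (u * gg α M s) *
      exp (ν * gg α M s) * s / exp s) (St T) (𝓝 0) := by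
  obtain ⟨A, B, -, hB⟩ := rat_asy p q hq (p.natDegree : ℤ) (by omega)
  have hx : Tendsto (fun s => u * gg α M s) (St T) (cobounded ℂ) :=
    (tendsto_mul_left_cobounded hu).comp (gg_cob α hM T)
  have hinv : Tendsto (fun x : ℂ => x⁻¹) (cobounded ℂ) (𝓝 0) := tendsto_inv₀_cobounded
  have hφ : Tendsto (fun x => p.eval x / (q.eval x * x ^ (p.natDegree : ℤ))) (cobounded ℂ) (𝓝 A) := by
    have h1 := (hB.mul hinv).add_const A
    rw [mul_zero, zero_add] at h1
    refine h1.congr' ?_
    filter_upwards [eventually_ne_cobounded (0 : ℂ)] with x hx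
    field_simp
    ring
  have h1 := ((hφ.comp hx).const_mul (u ^ p.natDegree)).mul (low_term α hM hν p.natDegree T)
  rw [mul_zero] at h1
  refine h1.congr' ?_
  filter_upwards [gg_ne α hM T] with s hg
  simp only [Function.comp]
  have h2 : u * gg α M s ≠ 0 := mul_ne_zero hu hg
  have h3 : (u * gg α M s) ^ p.natDegree ≠ 0 := pow_ne_zero _ h2
  rw [zpow_natCast]
  have h5 : p.eval (u * gg α M s) / q.eval (u * gg α M s) =
      p.eval (u * gg α M s) / (q.eval (u * gg α M s) * (u * gg α M s) ^ p.natDegree) *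
        (u ^ p.natDegree * gg α M s ^ p.natDegree) := by
    rw [← mul_pow]
    rcases eq_or_ne (q.eval (u * gg α M s)) 0 with h6 | h6
    · rw [h6]; simp
    · field_simp
  rw [h5]
  ring

end Pool.Agent.K9h26.GH
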