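import Pool.Agent.K9h26.GE.Cross

set_option autoImplicit false

/-!
Functions `a exp s + h s` with `h s = (v + o(1)) exp s / s`.
-/

namespace Pool.Agent.K9h26.GH

open Complex Filter Topology
open Pool.Agent.K9h26.GE
open Pool.Agent.W175.GF (Hp SlowH mn FJ S_SEP S_REG S_REGJ S_LAST Hp_re Hp_slit Hp_norm Hp_anti
  Hp_open mn_diff kap mn_eq SE)

/-- `h s = (v + o(1)) exp s / s` in horizontal strips -/
def Tends (r : ℝ) (v : ℂ) (h : ℂ → ℂ) : Prop :=
  ∀ T ε : ℝ, 0 < ε → ∃ C : ℝ, ∀ s ∈ Us r T, ‖h s * s - v * exp s‖ ≤ ε * Real.exp s.re + C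

/-- `h s = o (exp s)` in horizontal strips -/
def Small (r : ℝ) (h : ℂ → ℂ) : Prop :=
  ∀ T ε : ℝ, 0 < ε → ∃ C : ℝ, ∀ s ∈ Us r T, ‖h s‖ ≤ ε * Real.exp s.re + C

lemma Tends.small {r : ℝ} (hr : 1 ≤ r) {v : ℂ} {h : ℂ → ℂ} (H : Tends r v h) : Small r h := by
  intro T ε hε
  obtain ⟨C, hC⟩ := H T 1 one_pos
  set X : ℝ := (‖v‖ + 1) / ε with hX
  have hX0 : 0 ≤ X := by positivity
  refine ⟨(‖v‖ + 1) * Real.exp X + |C|, fun s hs => ?_⟩
  have hx1 : 1 < s.re := lt_of_le_of_lt hr hs.1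
  have hn : s.re ≤ ‖s‖ := re_le_norm s
  have hn1 : 1 ≤ ‖s‖ := by linarith
  have h1 : ‖h s‖ * ‖s‖ ≤ (‖v‖ + 1) * Real.exp s.re + |C| := by
    rw [← norm_mul]
    calc ‖h s * s‖ = ‖(h s * s - v * exp s) + v * exp s‖ := by congr 1; ring
      _ ≤ ‖h s * s - v * exp s‖ + ‖v * exp s‖ := norm_add_le _ _
      _ ≤ (1 * Real.exp s.re + C) + ‖v‖ * Real.exp s.re := by
          apply add_le_add (hC s hs)
          rw [norm_mul, norm_exp]
      _ ≤ _ := by
          have := le_abs_self C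
          linarith
  have he := Real.exp_pos s.re
  rcases le_total X s.re with h2 | h2
  · -- large
    have h3 : ‖h s‖ ≤ ((‖v‖ + 1) * Real.exp s.re + |C|) / s.re := by
      rw [le_div_iff₀ (by linarith)]
      exact (mul_le_mul_of_nonneg_left hn (norm_nonneg _)).trans h1
    have h4 : ((‖v‖ + 1) * Real.exp s.re + |C|) / s.re ≤ ε * Real.exp s.re + |C| := by
      rw [div_le_iff₀ (by linarith)]
      have h5 : ‖v‖ + 1 ≤ ε * s.re := by
        rw [hX, div_le_iff₀ hε] at h2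
        linarith
      have h6 : (‖v‖ + 1) * Real.exp s.re ≤ ε * s.re * Real.exp s.re :=
        mul_le_mul_of_nonneg_right h5 he.le
      have h7 : |C| ≤ |C| * s.re := le_mul_of_one_le_right (abs_nonneg _) hx1.le
      nlinarith
    have h8 : 0 ≤ (‖v‖ + 1) * Real.exp X := by positivity
    linarith
  · have h3 : ‖h s‖ ≤ ‖h s‖ * ‖s‖ := le_mul_of_one_le_right (norm_nonneg _) hn1
    have h4 : (‖v‖ + 1) * Real.exp s.re ≤ (‖v‖ + 1) * Real.exp X :=
      mul_le_mul_of_nonneg_left (Real.exp_le_exp.2 h2) (by positivity)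
    have h5 : 0 ≤ ε * Real.exp s.re := by positivity
    linarith

lemma Small.const_mul {r : ℝ} {h : ℂ → ℂ} (H : Small r h) (c : ℂ) : Small r (fun s => c * h s) := by
  intro T ε hε
  obtain ⟨C, hC⟩ := H T (ε / (‖c‖ + 1)) (by positivity)
  refine ⟨‖c‖ * |C|, fun s hs => ?_⟩
  rw [norm_mul]
  have h1 := hC s hs
  have h2 : ‖c‖ * ‖h s‖ ≤ ‖c‖ * (ε / (‖c‖ + 1) * Real.exp s.re + |C|) :=
    mul_le_mul_of_nonneg_left (h1.trans (by have := le_abs_self C; linarith)) (norm_nonneg _)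
  have h3 : ‖c‖ * (ε / (‖c‖ + 1) * Real.exp s.re) ≤ ε * Real.exp s.re := by
    have h4 : ‖c‖ * (ε / (‖c‖ + 1)) ≤ ε := by
      rw [← mul_div_assoc, div_le_iff₀ (by positivity)]
      nlinarith [norm_nonneg c]
    have := mul_le_mul_of_nonneg_right h4 (Real.exp_pos s.re).le
    linarith
  linarith

lemma Small.slow_exp {r : ℝ} {f : ℂ → ℂ} (hf : DifferentiableOn ℂ f (U r)) (H : Small r f) :
    Slow r (fun s => exp (f s)) := by
  refine ⟨hf.cexp, fun T ε hε => ?_⟩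
  obtain ⟨C, hC⟩ := H T ε hε
  refine ⟨Real.exp C, fun s hs => ?_⟩
  rw [norm_exp, ← Real.exp_add]
  apply Real.exp_le_exp.2
  have h1 := (re_le_norm _).trans (hC s hs)
  linarith

lemma Small.slow {r : ℝ} {f : ℂ → ℂ} (hf : DifferentiableOn ℂ f (U r)) (H : Small r f) :
    Slow r f := by
  refine ⟨hf, fun T ε hε => ?_⟩
  obtain ⟨C, hC⟩ := H T ε hε
  refine ⟨1 + |C|, fun s hs => ?_⟩
  simp only
  have h1 := hC s hs
  have h3 : ε * Real.exp s.re ≤ Real.exp (ε * Real.exp s.re) := by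
    have := Real.add_one_le_exp (ε * Real.exp s.re)
    linarith
  have h4 : 1 ≤ Real.exp (ε * Real.exp s.re) := Real.one_le_exp (by positivity)
  have h5 := le_abs_self C
  nlinarith [abs_nonneg C]

lemma EP.exp_small {r : ℝ} (a : ℂ) {h : ℂ → ℂ}
    (hh : DifferentiableOn ℂ h (U r)) (hK : Small r h) (v : ℂ) :
    EP r (fun s => exp (v * (a * exp s + h s))) := by
  have h1 : Slow r (fun s => exp (v * h s)) := Small.slow_exp (hh.const_mul v) (hK.const_mul v)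
  refine (EP.single h1 (v * a)).congr fun s _ => ?_
  rw [← exp_add]
  congr 1
  ring

/-- moving the argument of the main term -/
lemma shift {b : ℂ} (hb : b ≠ 0) {ψ θ : ℝ} (hθ0 : 0 < θ) (hθ : θ ≤ Real.pi / 4)
    (hψ : |ψ| + θ < Real.pi / 2) :
    ∃ A : ℝ, 0 ≤ A ∧ ∀ τ ∈ Hp ψ 0, ∀ η : ℂ, ‖η‖ ≤ ‖b‖ * (Real.sin θ / 2) * ‖τ‖ →
      ∃ ψ' : ℝ, (ψ' = ψ + θ ∨ ψ' = ψ - θ) ∧ (τ + η / b) ∈ Hp ψ' (Real.sin θ / 4 * ‖τ‖) ∧
      ‖mn b (τ + η / b) - mn b τ - η * log τ‖ ≤ A * ‖η‖ ∧ ‖τ + η / b‖ ≤ 2 * ‖τ‖ := by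
  have hpi := Real.pi_pos
  have hs0 : 0 < Real.sin θ := Real.sin_pos_of_pos_of_lt_pi hθ0 (by linarith)
  have hs1 : Real.sin θ ≤ 1 := Real.sin_le_one θ
  have hbn : 0 < ‖b‖ := norm_pos_iff.2 hb
  refine ⟨8 / Real.sin θ + ‖log b - 1‖, by positivity, fun τ hτ η hη => ?_⟩
  have hψ1 : |ψ| < Real.pi / 2 := by linarith
  have hτs := Hp_slit hψ1 le_rfl hτ
  have hτ0 : τ ≠ 0 := slitPlane_ne_zero hτs
  have hτn : 0 < ‖τ‖ := norm_pos_iff.2 hτ0
  -- write τ in polar coordinates relative to ψ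
  set φ : ℝ := arg (τ * exp (-(ψ * I))) with hφ
  have hn1 : ‖τ * exp (-(ψ * I))‖ = ‖τ‖ := by
    rw [norm_mul, norm_exp]
    simp
  have hpol : τ * exp (-(ψ * I)) = ‖τ‖ * exp (φ * I) := by
    have := norm_mul_exp_arg_mul_I (τ * exp (-(ψ * I)))
    rw [hn1] at this
    exact this.symm
  have hφ1 : |φ| < Real.pi / 2 := abs_arg_lt_pi_div_two_iff.2 (Or.inl hτ)
  -- the direction
  obtain ⟨σ, hσ, hcos⟩ : ∃ σ : ℝ, (σ = θ ∨ σ = -θ) ∧ Real.sin θ ≤ Real.cos (φ - σ) := by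
    have hsin : Real.sin θ = Real.cos (Real.pi / 2 - θ) := (Real.cos_pi_div_two_sub θ).symm
    rcases le_total 0 φ with h0 | h0
    · refine ⟨θ, Or.inl rfl, ?_⟩
      rw [hsin, ← Real.cos_abs (φ - θ)]
      apply Real.cos_le_cos_of_nonneg_of_le_pi (abs_nonneg _) (by linarith)
      rw [abs_le]
      constructor
      · linarith
      · have := (abs_lt.1 hφ1).2
        linarith
    · refine ⟨-θ, Or.inr rfl, ?_⟩
      rw [hsin, ← Real.cos_abs (φ - -θ)]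
      apply Real.cos_le_cos_of_nonneg_of_le_pi (abs_nonneg _) (by linarith)
      rw [abs_le]
      constructor
      · have := (abs_lt.1 hφ1).1
        linarith
      · linarith
  set ψ' : ℝ := ψ + σ with hψ'
  have hψ'2 : |ψ'| < Real.pi / 2 := by
    have h1 : |σ| = θ := by rcases hσ with h | h <;> rw [h] <;> simp [abs_of_pos hθ0]
    have := abs_add_le ψ σ
    rw [h1] at this
    linarith
  have hre : (τ * exp (-(ψ' * I))).re = ‖τ‖ * Real.cos (φ - σ) := by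
    have h1 : τ * exp (-(ψ' * I)) = (τ * exp (-(ψ * I))) * exp (-(σ * I)) := by
      rw [mul_assoc, ← exp_add]
      congr 2
      rw [hψ']
      push_cast
      ring
    rw [h1, hpol, mul_assoc, ← exp_add, re_ofReal_mul]
    congr 1
    have h2 : (φ : ℂ) * I + -(σ * I) = ((φ - σ : ℝ) : ℂ) * I := by push_cast; ring
    rw [h2, exp_ofReal_mul_I_re]
  -- the half plane
  set m : ℝ := Real.sin θ / 4 * ‖τ‖ with hm
  have hm0 : 0 < m := by positivity
  have hmem1 : τ ∈ Hp ψ' m := by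
    show m < (τ * exp (-(ψ' * I))).re
    rw [hre, hm]
    nlinarith
  have hηb : ‖η / b‖ ≤ Real.sin θ / 2 * ‖τ‖ := by
    rw [norm_div, div_le_iff₀ hbn]
    linarith
  have hmem2 : τ + η / b ∈ Hp ψ' m := by
    show m < ((τ + η / b) * exp (-(ψ' * I))).re
    rw [add_mul, add_re, hre]
    have h1 : -‖η / b‖ ≤ (η / b * exp (-(ψ' * I))).re := by
      have h2 := abs_re_le_norm (η / b * exp (-(ψ' * I)))
      have h3 : ‖η / b * exp (-(ψ' * I))‖ = ‖η / b‖ := by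
        rw [norm_mul, norm_exp]; simp
      rw [h3] at h2
      exact (abs_le.1 h2).1
    rw [hm]
    nlinarith
  have hconv : Convex ℝ (Hp ψ' m) := by
    have h1 : Hp ψ' m = {τ : ℂ | m < (reLm.comp (LinearMap.mulRight ℝ (exp (-(ψ' * I))))) τ} := by
      ext x
      simp [Hp]
    rw [h1]
    exact convex_halfSpace_gt (LinearMap.isLinear _) m
  have hder : ∀ x ∈ Hp ψ' m, HasDerivWithinAt log x⁻¹ (Hp ψ' m) x := fun x hx =>
    (hasDerivAt_log (Hp_slit hψ'2 hm0.le hx)).hasDerivWithinAt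
  have hderb : ∀ x ∈ Hp ψ' m, ‖x⁻¹‖ ≤ m⁻¹ := by
    intro x hx
    rw [norm_inv]
    exact inv_anti₀ hm0 (Hp_norm hx).le
  have hlog := hconv.norm_image_sub_le_of_norm_hasDerivWithin_le hder hderb hmem1 hmem2
  have hτ' : ‖τ + η / b‖ ≤ 2 * ‖τ‖ := by
    refine (norm_add_le _ _).trans ?_
    nlinarith
  have hlog2 : ‖log (τ + η / b) - log τ‖ ≤ m⁻¹ * (‖η‖ / ‖b‖) := by
    rw [← norm_div]
    simpa using hlog
  refine ⟨ψ', ?_, hmem2, ?_, hτ'⟩
  · rcases hσ with h | h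
    · left; rw [hψ', h]
    · right; rw [hψ', h]; ring
  · have e1 : mn b (τ + η / b) - mn b τ - η * log τ =
        b * (τ + η / b) * (log (τ + η / b) - log τ) + (log b - 1) * η := by
      unfold mn
      have h3 : b * (τ + η / b) = b * τ + η := by field_simp
      rw [h3]
      ring
    rw [e1]
    refine (norm_add_le _ _).trans ?_
    rw [norm_mul, norm_mul, norm_mul, add_mul]
    have h5 : ‖b‖ * ‖τ + η / b‖ * ‖log (τ + η / b) - log τ‖ ≤
        ‖b‖ * (2 * ‖τ‖) * (m⁻¹ * (‖η‖ / ‖b‖)) :=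
      mul_le_mul (mul_le_mul_of_nonneg_left hτ' hbn.le) hlog2 (norm_nonneg _) (by positivity)
    have h6 : ‖b‖ * (2 * ‖τ‖) * (m⁻¹ * (‖η‖ / ‖b‖)) = 8 / Real.sin θ * ‖η‖ := by
      rw [hm]
      field_simp
      ring
    linarith

end Pool.Agent.K9h26.GH
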