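import Pool.Agent.K9h26.GH.Lower

set_option autoImplicit false

/-!
The coordinate `g(s) = (s - α ℓ + α² ℓ / s) / M`, `ℓ = log (s/M)`: `g^α exp (M g)` is
`exp s (1 + o(1/s))`.
-/

namespace Pool.Agent.K9h26.GH

open Complex Filter Topology Bornology
open Pool.Agent.K9h26.GE (U Us U_open U_preconnected U_nonempty U_mono)

/-- `Re s → ∞` in the strip `|Im s| ≤ T` -/
def St (T : ℝ) : Filter ℂ := comap re atTop ⊓ 𝓟 {s | |s.im| ≤ T}

lemma St_le (T : ℝ) : St T ≤ comap re atTop := inf_le_left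

lemma st_re (T : ℝ) : Tendsto (fun s : ℂ => s.re) (St T) atTop :=
  tendsto_comap.mono_left (St_le T)

lemma st_norm (T : ℝ) : Tendsto (fun s : ℂ => ‖s‖) (St T) atTop :=
  tendsto_atTop_mono (fun s => re_le_norm s) (st_re T)

lemma st_im (T : ℝ) : ∀ᶠ s in St T, |s.im| ≤ T :=
  (eventually_principal.2 fun _ h => h).filter_mono inf_le_right

lemma st_pos (T c : ℝ) : ∀ᶠ s in St T, c < s.re := (st_re T).eventually_gt_atTop c

lemma tends_of {r' r : ℝ} (hr : r' < r) {v : ℂ} {h : ℂ → ℂ} (hd : DifferentiableOn ℂ h (U r'))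
    (H : ∀ T, Tendsto (fun s => h s * s / exp s) (St T) (𝓝 v)) : Tends r v h := by
  intro T ε hε
  have h1 : ∀ᶠ s in St T, ‖h s * s / exp s - v‖ < ε := by
    have := (H T).sub_const v
    rw [sub_self] at this
    have := this.norm
    rw [norm_zero] at this
    exact this.eventually_lt_const hε
  rw [St, eventually_inf_principal, eventually_comap] at h1
  obtain ⟨X, hX⟩ := eventually_atTop.1 h1
  have hcomp : IsCompact (Set.Icc r X ×ℂ Set.Icc (-T) T) := isCompact_Icc.reProdIm isCompact_Icc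
  have hcont : ContinuousOn (fun s => h s * s - v * exp s) (Set.Icc r X ×ℂ Set.Icc (-T) T) := by
    apply ContinuousOn.sub
    · apply ContinuousOn.mul _ continuousOn_id
      exact hd.continuousOn.mono fun s hs => hr.trans_le hs.1.1
    · exact (continuous_const.mul continuous_exp).continuousOn
  obtain ⟨B, hB⟩ := hcomp.exists_bound_of_continuousOn hcont
  refine ⟨|B|, fun s hs => ?_⟩
  rcases le_total X s.re with h2 | h2
  · have h3 := hX s.re h2 s rfl hs.2
    have h4 : h s * s - v * exp s = (h s * s / exp s - v) * exp s := by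
      have := exp_ne_zero s
      field_simp
    rw [h4, norm_mul, norm_exp]
    have h5 := mul_le_mul_of_nonneg_right h3.le (Real.exp_pos s.re).le
    have := abs_nonneg B
    linarith
  · have h3 := hB s ⟨⟨hs.1.le, h2⟩, abs_le.1 hs.2⟩
    have h4 := le_abs_self B
    have h5 : 0 ≤ ε * Real.exp s.re := by positivity
    linarith

/-- `log (s/M)` -/
noncomputable def ell (M : ℝ) (s : ℂ) : ℂ := log (s / M)

lemma sM_re {M : ℝ} (s : ℂ) : (s / M).re = s.re / M := by rw [div_ofReal_re]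

lemma sM_slit {M : ℝ} (hM : 0 < M) {s : ℂ} (hs : 0 < s.re) : s / M ∈ slitPlane := by
  left
  rw [sM_re]
  positivity

lemma ell_diff {M : ℝ} (hM : 0 < M) : DifferentiableOn ℂ (ell M) (U 0) := by
  intro s hs
  have h1 : s / M ∈ slitPlane := sM_slit hM hs
  exact ((differentiableAt_id.div_const _).clog h1).differentiableWithinAt

lemma ell_norm {M : ℝ} (hM : 0 < M) {s : ℂ} (hs : M ≤ ‖s‖) :
    ‖ell M s‖ ≤ Real.log (‖s‖ / M) + Real.pi := by
  refine (norm_le_abs_re_add_abs_im _).trans ?_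
  unfold ell
  rw [log_re, log_im, norm_div, norm_real, Real.norm_eq_abs, abs_of_pos hM, abs_of_nonneg]
  · linarith [abs_arg_le_pi (s / M)]
  · apply Real.log_nonneg
    rwa [le_div_iff₀ hM, one_mul]

lemma norm_le_ell {M : ℝ} (hM : 0 < M) {s : ℂ} (hs : s ≠ 0) :
    ‖s‖ ≤ M * Real.exp ‖ell M s‖ := by
  have h1 : Real.log (‖s‖ / M) ≤ ‖ell M s‖ := by
    have h2 := re_le_norm (ell M s)
    unfold ell at h2 ⊢
    rwa [log_re, norm_div, norm_real, Real.norm_eq_abs, abs_of_pos hM] at h2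
  have hn : 0 < ‖s‖ := norm_pos_iff.2 hs
  rw [Real.log_le_iff_le_exp (by positivity), div_le_iff₀ hM] at h1
  linarith

lemma ell_sq {M : ℝ} (hM : 0 < M) (T : ℝ) :
    Tendsto (fun s => ‖ell M s‖ ^ 2 / ‖s‖) (St T) (𝓝 0) := by
  have hy : Tendsto (fun s : ℂ => ‖s‖ / M) (St T) atTop := (st_norm T).atTop_div_const hM
  have h1 : Tendsto (fun y : ℝ => (Real.log y + Real.pi) ^ 2 / y) atTop (𝓝 0) := by
    have e1 : Tendsto (fun y : ℝ => Real.log y ^ 2 / y) atTop (𝓝 0) := by
      have := (Real.isLittleO_pow_log_id_atTop (n := 2)).tendsto_div_nhds_zero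
      exact this
    have e2 : Tendsto (fun y : ℝ => Real.log y / y) atTop (𝓝 0) := by
      have := Real.isLittleO_log_id_atTop.tendsto_div_nhds_zero
      exact this
    have e3 : Tendsto (fun y : ℝ => y⁻¹) atTop (𝓝 0) := tendsto_inv_atTop_zero
    have e4 := (e1.add (e2.const_mul (2 * Real.pi))).add (e3.const_mul (Real.pi ^ 2))
    simp only [mul_zero, add_zero] at e4
    refine e4.congr fun y => ?_
    rcases eq_or_ne y 0 with rfl | hy
    · simp
    · field_simp
      ring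
  have h2 := (h1.comp hy).const_mul M⁻¹
  rw [mul_zero] at h2
  refine squeeze_zero' (Eventually.of_forall fun s => by positivity) ?_ h2
  filter_upwards [(st_norm T).eventually_ge_atTop M] with s hs
  have h3 := ell_norm hM hs
  have h4 : 0 < ‖s‖ := by linarith
  have h5 : ‖ell M s‖ ^ 2 ≤ (Real.log (‖s‖ / M) + Real.pi) ^ 2 :=
    pow_le_pow_left₀ (norm_nonneg _) h3 2
  simp only [Function.comp]
  rw [div_le_iff₀ h4]
  calc ‖ell M s‖ ^ 2 ≤ (Real.log (‖s‖ / M) + Real.pi) ^ 2 := h5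
    _ = _ := by field_simp

lemma inv_norm_st (T : ℝ) : Tendsto (fun s : ℂ => ‖s‖⁻¹) (St T) (𝓝 0) :=
  tendsto_inv_atTop_zero.comp (st_norm T)

lemma ell_one {M : ℝ} (hM : 0 < M) (T : ℝ) :
    Tendsto (fun s => ‖ell M s‖ / ‖s‖) (St T) (𝓝 0) := by
  have h1 := ((ell_sq hM T).add (inv_norm_st T))
  rw [add_zero] at h1
  refine squeeze_zero (fun s => by positivity) (fun s => ?_) h1
  have h2 : ‖ell M s‖ ≤ ‖ell M s‖ ^ 2 + 1 := by nlinarith [sq_nonneg (‖ell M s‖ - 1)]
  rw [← one_div, ← add_div]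
  exact div_le_div_of_nonneg_right h2 (norm_nonneg _)

/-- the coordinate -/
noncomputable def gg (α : ℤ) (M : ℝ) (s : ℂ) : ℂ :=
  (s - α * ell M s + α ^ 2 * ell M s / s) / M

/-- the correction -/
noncomputable def ww (α : ℤ) (M : ℝ) (s : ℂ) : ℂ :=
  -(α * (ell M s / s)) + α ^ 2 * (ell M s / s) / s

lemma gg_eq (α : ℤ) (M : ℝ) {s : ℂ} (hs : s ≠ 0) : gg α M s = s / M * (1 + ww α M s) := by
  unfold gg ww
  rcases eq_or_ne (M : ℂ) 0 with h | h
  · rw [h]; simp
  · field_simp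
    ring

lemma gg_diff (α : ℤ) {M : ℝ} (hM : 0 < M) : DifferentiableOn ℂ (gg α M) (U 0) := by
  have hne : ∀ s ∈ U 0, s ≠ 0 := by
    rintro s hs rfl
    exact lt_irrefl _ (show (0 : ℝ) < (0 : ℂ).re from hs)
  unfold gg
  apply DifferentiableOn.div_const
  apply DifferentiableOn.add
  · exact differentiableOn_id.sub ((ell_diff hM).const_mul _)
  · exact ((ell_diff hM).const_mul _).div differentiableOn_id hne

lemma ww_bd (α : ℤ) (M : ℝ) {s : ℂ} (hs : 1 ≤ ‖s‖) :
    ‖ww α M s‖ ≤ (|(α : ℝ)| + (α : ℝ) ^ 2) * (‖ell M s‖ / ‖s‖) := by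
  unfold ww
  refine (norm_add_le _ _).trans ?_
  rw [norm_neg, norm_mul, norm_div, norm_div, norm_mul, norm_div, norm_pow, add_mul]
  have h1 : ‖(α : ℂ)‖ = |(α : ℝ)| := by
    rw [← Complex.ofReal_intCast, norm_real, Real.norm_eq_abs]
  rw [h1, sq_abs]
  apply add_le_add le_rfl
  exact div_le_self (by positivity) hs

lemma ww_lim (α : ℤ) {M : ℝ} (hM : 0 < M) (T : ℝ) : Tendsto (ww α M) (St T) (𝓝 0) := by
  have h1 := (ell_one hM T).const_mul (|(α : ℝ)| + (α : ℝ) ^ 2)
  rw [mul_zero] at h1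
  apply squeeze_zero_norm' _ h1
  filter_upwards [(st_norm T).eventually_ge_atTop 1] with s hs
  exact ww_bd α M hs

lemma s_ne (T : ℝ) : ∀ᶠ s in St T, s ≠ 0 := by
  filter_upwards [st_pos T 0] with s hs h
  rw [h] at hs
  simp at hs

lemma s_gg (α : ℤ) {M : ℝ} (hM : 0 < M) (T : ℝ) :
    Tendsto (fun s => s / gg α M s) (St T) (𝓝 M) := by
  have hMc : (M : ℂ) ≠ 0 := by exact_mod_cast hM.ne'
  have h1 : Tendsto (fun s => (M : ℂ) / (1 + ww α M s)) (St T) (𝓝 (M / (1 + 0))) :=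
    Tendsto.div tendsto_const_nhds ((ww_lim α hM T).const_add 1) (by simp)
  rw [add_zero, div_one] at h1
  refine h1.congr' ?_
  have h2 : ∀ᶠ s in St T, ww α M s ≠ -1 := by
    have := (ww_lim α hM T).eventually_ne (show (0 : ℂ) ≠ -1 by norm_num)
    exact this
  filter_upwards [s_ne T, h2] with s hs h3
  have h4 : 1 + ww α M s ≠ 0 := fun h => h3 (by linear_combination h)
  rw [gg_eq α M hs]
  field_simp

lemma gg_ne (α : ℤ) {M : ℝ} (hM : 0 < M) (T : ℝ) : ∀ᶠ s in St T, gg α M s ≠ 0 := by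
  have hMc : (M : ℂ) ≠ 0 := by exact_mod_cast hM.ne'
  filter_upwards [(s_gg α hM T).eventually_ne hMc] with s hs h
  rw [h, div_zero] at hs
  exact hs rfl

lemma gg_inv (α : ℤ) {M : ℝ} (hM : 0 < M) (T : ℝ) :
    Tendsto (fun s => (gg α M s)⁻¹) (St T) (𝓝 0) := by
  have h1 : Tendsto (fun s : ℂ => s⁻¹) (St T) (𝓝 0) := by
    apply tendsto_zero_iff_norm_tendsto_zero.2
    simp only [norm_inv]
    exact inv_norm_st T
  have h2 := (s_gg α hM T).mul h1
  rw [mul_zero] at h2
  refine h2.congr' ?_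
  filter_upwards [s_ne T] with s hs
  field_simp

lemma gg_cob (α : ℤ) {M : ℝ} (hM : 0 < M) (T : ℝ) :
    Tendsto (gg α M) (St T) (cobounded ℂ) := by
  have h1 : Tendsto (fun s => (gg α M s)⁻¹) (St T) (𝓝[≠] 0) := by
    rw [tendsto_nhdsWithin_iff]
    refine ⟨gg_inv α hM T, ?_⟩
    filter_upwards [gg_ne α hM T] with s hs
    exact inv_ne_zero hs
  have h2 := tendsto_inv₀_nhdsNE_zero.comp h1
  refine h2.congr fun s => ?_
  simp

/-- the main property of the coordinate -/
lemma G_lim (α : ℤ) {M : ℝ} (hM : 0 < M) (T : ℝ) :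
    Tendsto (fun s => (gg α M s ^ α * exp (M * gg α M s) / exp s - 1) * s) (St T) (𝓝 0) := by
  have hMc : (M : ℂ) ≠ 0 := by exact_mod_cast hM.ne'
  -- the exponent
  set ξ : ℂ → ℂ := fun s => α * log (1 + ww α M s) + α ^ 2 * (ell M s / s) with hξ
  have hw := ww_lim α hM T
  have hw2 : ∀ᶠ s in St T, ‖ww α M s‖ ≤ 1 / 2 := by
    have := hw.norm
    rw [norm_zero] at this
    exact this.eventually_le_const (by norm_num)
  have heq : ∀ᶠ s in St T, gg α M s ^ α * exp (M * gg α M s) / exp s = exp (ξ s) := by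
    filter_upwards [s_ne T, hw2, st_pos T 0] with s hs h2 h3
    have h4 : 1 + ww α M s ≠ 0 := by
      intro h
      have : ww α M s = -1 := by linear_combination h
      rw [this, norm_neg, norm_one] at h2
      norm_num at h2
    have h5 : s / M ≠ 0 := div_ne_zero hs hMc
    have e1 : (s / M) ^ α = exp (α * ell M s) := by
      rw [exp_int_mul, ell, exp_log h5]
    have e2 : (1 + ww α M s) ^ α = exp (α * log (1 + ww α M s)) := by
      rw [exp_int_mul, exp_log h4]
    have e3 : (M : ℂ) * gg α M s = s - α * ell M s + α ^ 2 * ell M s / s := by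
      unfold gg
      field_simp
    rw [gg_eq α M hs, mul_zpow, e1, e2, ← gg_eq α M hs, e3, ← exp_add, ← exp_add, ← exp_sub]
    congr 1
    simp only [hξ]
    ring
  have hξb : ∀ᶠ s in St T, ‖ξ s * s‖ ≤ |(α : ℝ)| * (|(α : ℝ)| + (α : ℝ) ^ 2) ^ 2 *
      (‖ell M s‖ ^ 2 / ‖s‖) + |(α : ℝ)| ^ 3 * (‖ell M s‖ / ‖s‖) := by
    filter_upwards [s_ne T, hw2, (st_norm T).eventually_ge_atTop 1] with s hs h2 h3
    have h4 : ‖log (1 + ww α M s) - ww α M s‖ ≤ ‖ww α M s‖ ^ 2 := by
      have h5 := norm_log_one_add_sub_self_le (z := ww α M s) (by linarith)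
      refine h5.trans ?_
      have h6 : (1 - ‖ww α M s‖)⁻¹ ≤ 2 := by
        rw [inv_le_comm₀ (by linarith) two_pos]
        linarith
      nlinarith [sq_nonneg ‖ww α M s‖]
    have hα : ‖(α : ℂ)‖ = |(α : ℝ)| := by
      rw [← Complex.ofReal_intCast, norm_real, Real.norm_eq_abs]
    have e1 : ξ s * s = α * (log (1 + ww α M s) - ww α M s) * s + α ^ 3 * (ell M s / s) := by
      simp only [hξ]
      unfold ww
      field_simp
      ring
    rw [e1]
    refine (norm_add_le _ _).trans (add_le_add ?_ ?_)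
    · rw [norm_mul, norm_mul, hα]
      have h7 := pow_le_pow_left₀ (norm_nonneg _) (ww_bd α M h3) 2
      have h8 : 0 < ‖s‖ := by linarith
      calc |(α : ℝ)| * ‖log (1 + ww α M s) - ww α M s‖ * ‖s‖
          ≤ |(α : ℝ)| * ((|(α : ℝ)| + (α : ℝ) ^ 2) * (‖ell M s‖ / ‖s‖)) ^ 2 * ‖s‖ := by
            apply mul_le_mul_of_nonneg_right _ h8.le
            exact mul_le_mul_of_nonneg_left (h4.trans h7) (abs_nonneg _)
        _ = _ := by
            field_simp
    · rw [norm_mul, norm_pow, hα, norm_div]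
  have hξ0 : Tendsto (fun s => ξ s * s) (St T) (𝓝 0) := by
    have h1 := ((ell_sq hM T).const_mul (|(α : ℝ)| * (|(α : ℝ)| + (α : ℝ) ^ 2) ^ 2)).add
      ((ell_one hM T).const_mul (|(α : ℝ)| ^ 3))
    simp only [mul_zero, add_zero] at h1
    exact squeeze_zero_norm' hξb h1
  have hξ1 : ∀ᶠ s in St T, ‖ξ s‖ ≤ 1 := by
    have h1 := hξ0.norm
    rw [norm_zero] at h1
    filter_upwards [h1.eventually_le_const one_pos, (st_norm T).eventually_ge_atTop 1]
      with s h2 h3
    rw [norm_mul] at h2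
    nlinarith [norm_nonneg (ξ s)]
  have hfin : Tendsto (fun s => 2 * ‖ξ s * s‖) (St T) (𝓝 0) := by
    have := hξ0.norm.const_mul 2
    simpa using this
  apply squeeze_zero_norm' _ hfin
  filter_upwards [heq, hξ1] with s h1 h2
  rw [h1, norm_mul, norm_mul, ← mul_assoc]
  exact mul_le_mul_of_nonneg_right (norm_exp_sub_one_le h2) (norm_nonneg _)

lemma G_one (α : ℤ) {M : ℝ} (hM : 0 < M) (T : ℝ) :
    Tendsto (fun s => gg α M s ^ α * exp (M * gg α M s) / exp s) (St T) (𝓝 1) := by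
  have h1 : Tendsto (fun s : ℂ => s⁻¹) (St T) (𝓝 0) := by
    apply tendsto_zero_iff_norm_tendsto_zero.2
    simp only [norm_inv]
    exact inv_norm_st T
  have h2 := ((G_lim α hM T).mul h1).add_const 1
  rw [mul_zero, zero_add] at h2
  refine h2.congr' ?_
  filter_upwards [s_ne T] with s hs
  field_simp
  ring

end Pool.Agent.K9h26.GH
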