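import Pool.Agent.K9h26.GH.Homog

set_option autoImplicit false

/-!
Crossing the rays of poles.
-/

namespace Pool.Agent.K9h26.GH

open Complex Filter Topology
open Pool.Agent.K9h26.GE hiding slow_reg slow_J homog cross eta_slow
open Pool.Agent.W175.GF (Hp SlowH mn FJ S_SEP S_REG S_REGJ S_LAST Hp_re Hp_slit Hp_norm Hp_anti
  Hp_open mn_diff kap mn_eq Dir exists_fan_neg exists_fan_pos sepm FJ_id gam Tw)

variable {r : ℝ} {ι : Type} [Fintype ι] {a v : ι → ℂ} {h : ι → ℂ → ℂ}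

lemma eta_slow (D : DV r ι a v h) (i : ι) : Slow r (fun s => exp (2 * Real.pi * I * h i s)) :=
  Small.slow_exp ((D.hh i).const_mul _) ((D.sm i).const_mul _)

/-- the relation after crossing -/
lemma cross (hS : S_SEP) (hR : S_REG) (hJ : S_REGJ) (D : DV r ι a v h) (ζ : ℝ)
    (hdir : ∀ i, Dir (a i * cis ζ)) (N : Finset (ι → ℕ)) (p : ℂ × ℂ) (ω : (ι → ℕ) → ℂ)
    (R : (ι → ℕ) → ℂ → ℂ) (hRs : ∀ k ∈ N, Slow r (R k))
    (hp1 : ∀ k ∈ N, p.1 = - ∑ i, k i * (a i * cis ζ))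
    (hp2 : ∀ k ∈ N, p.2 = ω k * cis ζ - ∑ i, k i * (kap (a i * cis ζ) + v i * cis ζ))
    (hrel : ∀ s ∈ U r, ∑ k ∈ N, R k s * exp (ω k * exp s) *
        ∏ i, (Gamma (a i * exp s + h i s))⁻¹ ^ k i = 0)
    (J : Finset ι) (hJm : ∀ i, i ∈ J ↔ (a i * cis ζ).re = 0)
    (M : ℕ) (hM : ∀ k ∈ N, ∀ i, k i ≤ M) (k₀ : ι → ℕ) (u₁ u₂ : ℂ) :
    ∀ s ∈ U r, ∑ k ∈ N, (R k s *
      (gam J (fun i => (a i * cis ζ).im) h k u₁ s * gam J (fun i => (a i * cis ζ).im) h k₀ u₂ s -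
       gam J (fun i => (a i * cis ζ).im) h k u₂ s * gam J (fun i => (a i * cis ζ).im) h k₀ u₁ s) *
      exp (ω k * exp s) *
      ∏ i ∈ J, (1 - exp (2 * Real.pi * I * (a i * exp s + h i s))) ^ (M - k i)) *
        ∏ i, (Gamma (a i * exp s + h i s))⁻¹ ^ k i = 0 := by
  classical
  set b : ι → ℂ := fun i => a i * cis ζ with hb
  set β : ι → ℝ := fun i => (b i).im with hβ
  have hJb : ∀ i ∈ J, b i = β i * I := by
    intro i hi
    apply Complex.ext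
    · simp only [hβ, mul_re, ofReal_re, I_re, mul_zero, ofReal_im, I_im, mul_one, sub_self]
      exact (hJm i).1 hi
    · simp [hβ]
  have hJβ : ∀ i ∈ J, 0 < β i := by
    intro i hi
    rcases hdir i with h1 | h1
    · exact absurd ((hJm i).1 hi) (ne_of_gt h1)
    · exact h1.2
  obtain ⟨ψ₁, ψ₂, θ, hθ0, hθ, hθψ, h12, hψ2, hfan0, hfan⟩ := fan_pos b hdir
  have hlow : -(Real.pi / 2) < ψ₁ := by linarith [Real.pi_pos]
  have hupp : ψ₂ < Real.pi / 2 := by linarith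
  -- a common ρ
  obtain ⟨ρ₀, hρ₀⟩ := exists_rho (P := fun i ρ => Real.exp r ≤ ρ → i ∈ J →
      (SlowH ψ₁ ψ₂ ρ (fun τ => FJ (a i * exp (sg ζ τ) + h i (sg ζ τ)) *
        exp (mn (a i * cis ζ) τ + v i * cis ζ * τ)) ∧
      ∀ ψ ∈ Set.Ioo ψ₁ ψ₂, ∀ τ ∈ Hp ψ ρ, ∀ n : ℕ,
        a i * exp (sg ζ τ) + h i (sg ζ τ) ≠ n)) (fun i => by
    by_cases hi : i ∈ J
    · obtain ⟨ρ₀, -, h2⟩ := slow_J hJ D ζ i (hJβ i hi) (hJb i hi) hθ0 hθ hθψ h12 hψ2
      exact ⟨ρ₀, fun ρ h3 h4 _ => h2 ρ h3 h4⟩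
    · exact ⟨0, fun ρ _ _ h => absurd h hi⟩)
  obtain ⟨ρ₁, hρ₁⟩ := exists_rho (P := fun i ρ => Real.exp r ≤ ρ → i ∉ J →
      SlowH ψ₁ ψ₂ ρ (fun τ => (Gamma (a i * exp (sg ζ τ) + h i (sg ζ τ)))⁻¹ *
      exp (mn (a i * cis ζ) τ + v i * cis ζ * τ))) (fun i => by
    by_cases hi : i ∈ J
    · exact ⟨0, fun ρ _ _ h => absurd hi h⟩
    · have h1 : (b i).re ≠ 0 := fun h0 => hi ((hJm i).2 h0)
      obtain ⟨ρ₀, -, h2⟩ := slow_reg hR D ζ i hθ0 hθ hfan0 (hdir i).arg_le (hfan i h1)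
      exact ⟨ρ₀, fun ρ h3 h4 _ => h2 ρ h3 h4⟩)
  set ρ : ℝ := max (max 1 (Real.exp r)) (max ρ₀ ρ₁) with hρ
  have hρ1 : 1 ≤ ρ := (le_max_left _ _).trans (le_max_left _ _)
  have hρ2 : Real.exp r ≤ ρ := (le_max_right _ _).trans (le_max_left _ _)
  have hρJ' := fun i => hρ₀ i ρ ((le_max_left _ _).trans (le_max_right _ _)) hρ2
  have hρ0 : 0 ≤ ρ := by linarith
  set X : ι → ℂ → ℂ := fun i τ => if i ∈ J then FJ (a i * exp (sg ζ τ) + h i (sg ζ τ)) else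
    (Gamma (a i * exp (sg ζ τ) + h i (sg ζ τ)))⁻¹ with hX
  have hXs : ∀ i, SlowH ψ₁ ψ₂ ρ (fun τ => X i τ * exp (mn (b i) τ + v i * cis ζ * τ)) := by
    intro i
    by_cases hi : i ∈ J
    · refine (hρJ' i hi).1.congr fun ψ hψ τ hτ => ?_
      simp only [hX, if_pos hi, hb]
    · refine (hρ₁ i ρ ((le_max_right _ _).trans (le_max_right _ _)) hρ2 hi).congr
        fun ψ hψ τ hτ => ?_
      simp only [hX, if_neg hi, hb]
  have hslit : ∀ ψ ∈ Set.Ioo ψ₁ ψ₂, ∀ τ ∈ Hp ψ ρ, τ ≠ 0 ∧ sg ζ τ ∈ U r := by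
    intro ψ hψ τ hτ
    have hψ' : |ψ| < Real.pi / 2 := by linarith [hfan0 ψ hψ]
    exact ⟨slitPlane_ne_zero (Hp_slit hψ' hρ0 hτ),
      sg_memU (lt_of_le_of_lt hρ2 (Hp_norm hτ))⟩
  have hηs : ∀ i, SlowH ψ₁ ψ₂ ρ (fun τ => exp (2 * Real.pi * I * h i (sg ζ τ))) := by
    intro i
    have h1 := eta_slow D i
    exact slowH_of_slow ζ hlow hupp hρ2 h1
  -- the exponents
  have hexp : ∀ k ∈ N, ∀ τ : ℂ, τ ≠ 0 → (∏ i, exp (mn (b i) τ + v i * cis ζ * τ) ^ k i) *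
      exp (p.1 * (τ * log τ) + p.2 * τ) = exp (ω k * exp (sg ζ τ)) := by
    intro k hk τ hτ
    have h1 : ∏ i, exp (mn (b i) τ + v i * cis ζ * τ) ^ k i =
        exp (∑ i, k i * (mn (b i) τ + v i * cis ζ * τ)) := by
      rw [exp_sum]
      exact Finset.prod_congr rfl fun i _ => (exp_nat_mul _ _).symm
    rw [h1, ← exp_add]
    congr 1
    rw [exp_sg hτ, hp1 k hk, hp2 k hk]
    simp only [mn_eq, mul_add, Finset.sum_add_distrib]
    have e1 : ∑ i, (k i : ℂ) * (b i * (τ * log τ)) = (∑ i, k i * b i) * (τ * log τ) := by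
      rw [Finset.sum_mul]; exact Finset.sum_congr rfl fun i _ => by ring
    have e2 : ∑ i, (k i : ℂ) * (kap (b i) * τ) = (∑ i, k i * kap (b i)) * τ := by
      rw [Finset.sum_mul]; exact Finset.sum_congr rfl fun i _ => by ring
    have e3 : ∑ i, (k i : ℂ) * (v i * cis ζ * τ) = (∑ i, k i * (v i * cis ζ)) * τ := by
      rw [Finset.sum_mul]; exact Finset.sum_congr rfl fun i _ => by ring
    rw [e1, e2, e3]
    simp only [hb]
    ring
  -- product identities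
  have hprod : ∀ ψ ∈ Set.Ioo ψ₁ ψ₂, ∀ τ ∈ Hp ψ ρ, ∀ k : ι → ℕ,
      (∏ i, X i τ ^ k i) * ∏ i ∈ J, (1 - exp (2 * Real.pi * I *
        (a i * exp (sg ζ τ) + h i (sg ζ τ)))) ^ k i =
      ∏ i, (Gamma (a i * exp (sg ζ τ) + h i (sg ζ τ)))⁻¹ ^ k i := by
    intro ψ hψ τ hτ k
    have h1 : ∀ f : ι → ℂ, ∏ i ∈ J, f i = ∏ i, if i ∈ J then f i else 1 := by
      intro f
      rw [Finset.prod_ite_mem, Finset.univ_inter]
    rw [h1, ← Finset.prod_mul_distrib]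
    refine Finset.prod_congr rfl fun i _ => ?_
    by_cases hi : i ∈ J
    · simp only [hX, if_pos hi]
      rw [FJ_id _ ((hρJ' i hi).2 ψ hψ τ hτ), ← mul_pow, mul_comm]
    · simp only [hX, if_neg hi, mul_one]
  -- the twisted relation
  set G : ℂ × ℂ → ℂ := fun y => ∑ k ∈ N, R k (sg ζ y.2) *
    (∏ i, (X i y.2 * exp (mn (b i) y.2 + v i * cis ζ * y.2)) ^ k i) *
    ∏ i ∈ J, (1 + -exp (2 * Real.pi * I * h i (sg ζ y.2)) * exp (-(2 * Real.pi * β i) * y.1)) ^ k i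
    with hG
  have hGT : Tw ψ₁ ψ₂ ρ G := by
    apply Tw.sum
    intro k hk
    apply Tw.mul
    · exact Tw.of_slow (g := fun τ => R k (sg ζ τ) * ∏ i, (X i τ * exp (mn (b i) τ + v i * cis ζ * τ)) ^ k i)
        ((slowH_of_slow ζ hlow hupp hρ2 (hRs k hk)).mul
        (SlowH.prod _ _ fun i _ => (hXs i).pow _))
    · apply Tw.prod
      intro i _
      apply Tw.pow
      apply Tw.add
      · exact Tw.of_slow (g := fun _ => 1) (SlowH.const 1)
      · exact Tw.single (g := fun τ => -exp (2 * Real.pi * I * h i (sg ζ τ))) (hηs i).neg _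
  have hGd : ∀ ψ ∈ Set.Ioo ψ₁ ψ₂, ∀ τ ∈ Hp ψ ρ, G (τ, τ) = 0 := by
    intro ψ hψ τ hτ
    obtain ⟨hτ0, hs⟩ := hslit ψ hψ τ hτ
    have hE : exp (p.1 * (τ * log τ) + p.2 * τ) ≠ 0 := exp_ne_zero _
    apply (mul_eq_zero.1 (?_ : G (τ, τ) * exp (p.1 * (τ * log τ) + p.2 * τ) = 0)).resolve_right hE
    rw [← hrel _ hs]
    simp only [hG]
    rw [Finset.sum_mul]
    refine Finset.sum_congr rfl fun k hk => ?_
    have h1 : ∏ i ∈ J, (1 + -exp (2 * Real.pi * I * h i (sg ζ τ)) *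
        exp (-(2 * Real.pi * β i) * τ)) ^ k i = ∏ i ∈ J, (1 - exp (2 * Real.pi * I *
        (a i * exp (sg ζ τ) + h i (sg ζ τ)))) ^ k i := by
      refine Finset.prod_congr rfl fun i hi => ?_
      congr 1
      rw [neg_mul, ← sub_eq_add_neg, ← exp_add]
      congr 2
      rw [exp_sg hτ0, ← mul_assoc (a i)]
      have h2 : a i * cis ζ = β i * I := hJb i hi
      rw [h2]
      have hI2 : I * I = -1 := I_mul_I
      linear_combination (-(2 * Real.pi * β i * τ)) * hI2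
    rw [h1]
    have h3 : ∏ i, (X i τ * exp (mn (b i) τ + v i * cis ζ * τ)) ^ k i = (∏ i, X i τ ^ k i) *
        ∏ i, exp (mn (b i) τ + v i * cis ζ * τ) ^ k i := by
      rw [← Finset.prod_mul_distrib]
      exact Finset.prod_congr rfl fun i _ => mul_pow _ _ _
    rw [h3, ← hprod ψ hψ τ hτ k, ← hexp k hk τ hτ0]
    ring
  have hGu : ∀ u : ℂ, ∀ ψ ∈ Set.Ioo ψ₁ ψ₂, ∀ τ ∈ Hp ψ ρ, G (u, τ) = 0 := fun u =>
    hGT.twist hS hlow h12 hupp hρ1 hGd u
  have hGg : ∀ (u τ : ℂ), G (u, τ) = ∑ k ∈ N, R k (sg ζ τ) *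
    (∏ i, (X i τ * exp (mn (b i) τ + v i * cis ζ * τ)) ^ k i) * gam J β h k u (sg ζ τ) := by
    intro u τ
    simp only [hG, gam]
    refine Finset.sum_congr rfl fun k _ => ?_
    congr 1
    refine Finset.prod_congr rfl fun i _ => ?_
    congr 1
    rw [neg_mul, ← sub_eq_add_neg, ← exp_add]
    congr 2
    ring
  -- conclusion on the fan
  have hψ₀ : ((ψ₁ + ψ₂) / 2) ∈ Set.Ioo ψ₁ ψ₂ := ⟨by linarith, by linarith⟩
  have hψ' : |(ψ₁ + ψ₂) / 2| < Real.pi / 2 := by linarith [hfan0 _ hψ₀]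
  have hEd : ∀ i, DifferentiableOn ℂ (fun s => a i * exp s + h i s) (U r) := by
    intro i
    apply DifferentiableOn.add
    · apply DifferentiableOn.const_mul
      exact differentiable_exp.differentiableOn
    · exact D.hh i
  have hgd : ∀ k u, DifferentiableOn ℂ (gam J β h k u) (U r) := by
    intro k u
    unfold gam
    apply DifferentiableOn.fun_finsetProd
    intro i _
    apply DifferentiableOn.pow
    apply DifferentiableOn.const_sub
    apply DifferentiableOn.cexp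
    apply DifferentiableOn.sub_const
    exact (D.hh i).const_mul _
  apply of_fan ζ hψ' hρ0 (ρ := ρ)
  · apply DifferentiableOn.fun_sum
    intro k hk
    apply DifferentiableOn.mul
    · apply DifferentiableOn.mul
      · apply DifferentiableOn.mul
        · apply (hRs k hk).1.mul
          exact ((hgd k u₁).mul (hgd k₀ u₂)).sub ((hgd k u₂).mul (hgd k₀ u₁))
        · apply DifferentiableOn.cexp
          apply DifferentiableOn.const_mul
          exact differentiable_exp.differentiableOn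
      · apply DifferentiableOn.fun_finsetProd
        intro i _
        apply DifferentiableOn.pow
        apply DifferentiableOn.const_sub
        exact ((hEd i).const_mul _).cexp
    · apply DifferentiableOn.fun_finsetProd
      intro i _
      apply DifferentiableOn.pow
      exact Complex.differentiable_one_div_Gamma.comp_differentiableOn (hEd i)
  · intro τ hτ
    obtain ⟨hτ0, hs⟩ := hslit _ hψ₀ τ hτ
    have e1 := hGu u₁ _ hψ₀ τ hτ
    have e2 := hGu u₂ _ hψ₀ τ hτ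
    rw [hGg] at e1 e2
    have e3 : (∑ k ∈ N, R k (sg ζ τ) * (∏ i, (X i τ * exp (mn (b i) τ + v i * cis ζ * τ)) ^ k i) *
        gam J β h k u₁ (sg ζ τ)) * gam J β h k₀ u₂ (sg ζ τ) -
        (∑ k ∈ N, R k (sg ζ τ) * (∏ i, (X i τ * exp (mn (b i) τ + v i * cis ζ * τ)) ^ k i) *
        gam J β h k u₂ (sg ζ τ)) * gam J β h k₀ u₁ (sg ζ τ) = 0 := by
      rw [e1, e2]; ring
    have e4 : ((∑ k ∈ N, R k (sg ζ τ) * (∏ i, (X i τ * exp (mn (b i) τ + v i * cis ζ * τ)) ^ k i) *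
        gam J β h k u₁ (sg ζ τ)) * gam J β h k₀ u₂ (sg ζ τ) -
        (∑ k ∈ N, R k (sg ζ τ) * (∏ i, (X i τ * exp (mn (b i) τ + v i * cis ζ * τ)) ^ k i) *
        gam J β h k u₂ (sg ζ τ)) * gam J β h k₀ u₁ (sg ζ τ)) *
        (exp (p.1 * (τ * log τ) + p.2 * τ) * ∏ i ∈ J, (1 - exp (2 * Real.pi * I *
        (a i * exp (sg ζ τ) + h i (sg ζ τ)))) ^ M) = 0 := by rw [e3, zero_mul]
    rw [← e4, Finset.sum_mul, Finset.sum_mul, ← Finset.sum_sub_distrib, Finset.sum_mul]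
    refine Finset.sum_congr rfl fun k hk => ?_
    have h3 : ∏ i, (X i τ * exp (mn (b i) τ + v i * cis ζ * τ)) ^ k i = (∏ i, X i τ ^ k i) *
        ∏ i, exp (mn (b i) τ + v i * cis ζ * τ) ^ k i := by
      rw [← Finset.prod_mul_distrib]
      exact Finset.prod_congr rfl fun i _ => mul_pow _ _ _
    have h4 : ∏ i ∈ J, (1 - exp (2 * Real.pi * I *
        (a i * exp (sg ζ τ) + h i (sg ζ τ)))) ^ M =
        (∏ i ∈ J, (1 - exp (2 * Real.pi * I *
        (a i * exp (sg ζ τ) + h i (sg ζ τ)))) ^ (M - k i)) *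
        ∏ i ∈ J, (1 - exp (2 * Real.pi * I *
        (a i * exp (sg ζ τ) + h i (sg ζ τ)))) ^ k i := by
      rw [← Finset.prod_mul_distrib]
      refine Finset.prod_congr rfl fun i _ => ?_
      rw [← pow_add, Nat.sub_add_cancel (hM k hk i)]
    rw [h3, h4, ← hprod _ hψ₀ τ hτ k, ← hexp k hk τ hτ0]
    ring

end Pool.Agent.K9h26.GH
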