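import Pool.Agent.K9h26.GH.Prep

set_option autoImplicit false

/-!
The functional theorem for exponential polynomials divided by polynomials.
-/

namespace Pool.Agent.K9h26.GH

open Complex Filter Topology Bornology
open Pool.Agent.K9h26.GE (U Us U_open U_preconnected U_nonempty U_mono Slow XP split rot elim_poly
  EP.sum EP.mul EP.of_slow EP.prod EP.pow EP ginv_diff QP)
open Pool.Agent.W175.GF (sepF regF regjF tgF rgF)

theorem func_aux : ∀ (n : ℕ) (ι : Type) [Fintype ι], Fintype.card ι = n → ∀ (f : ι → ℂ → ℂ)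
    (W : ι → Finset ℂ) (p : ι → ℂ → Polynomial ℂ) (q : ι → Polynomial ℂ),
    (∀ i, Differentiable ℂ (f i)) → (∀ i, q i ≠ 0) →
    (∀ i t, (q i).eval t * f i t = ∑ ω ∈ W i, (p i ω).eval t * exp (ω * t)) →
    (∀ i, ∀ ω ∈ W i, p i ω ≠ 0) →
    (∀ i, ∀ v : ℂ, ¬ ∀ t, f i t = v) →
    (∀ i j, i ≠ j → ∀ p q : ℚ, ¬ ∀ t, f i t = p * f j t + q) →
    ∀ (N : Finset (ι → ℕ)) (c : (ι → ℕ) → ℂ → ℂ), (∀ k ∈ N, XP (c k)) →
    (∀ t, ∑ k ∈ N, c k t * ∏ i, (Gamma (f i t))⁻¹ ^ k i = 0) →
    ∀ k ∈ N, ∀ t, c k t = 0 := by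
  classical
  intro n
  induction n using Nat.strong_induction_on with
  | _ n ih =>
  intro ι _ hcard f W p q hd hq hf hp hn hH N c hc hrel
  by_cases hall : ∀ i, ∀ ω ∈ W i, ω = 0
  · -- all functions are polynomials
    have hpoly : ∀ i, ∃ m : Polynomial ℂ, ∀ t, f i t = m.eval t := by
      intro i
      apply rat_entire (q i) (∑ ω ∈ W i, p i ω) (hq i) (hd i)
      intro t
      rw [hf, Polynomial.eval_finsetSum]
      refine Finset.sum_congr rfl fun ω hω => ?_
      rw [hall i ω hω]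
      simp
    choose m hm using hpoly
    refine elim_poly m ?_ ?_ N c hc ?_
    · intro i
      by_contra hcon
      have h0 : (m i).natDegree = 0 := by omega
      obtain ⟨a, ha⟩ := Polynomial.natDegree_eq_zero.1 h0
      apply hn i a
      intro t
      rw [hm i t, ← ha, Polynomial.eval_C]
    · intro i j hij p' q' hcon
      refine hH i j hij p' q' fun t => ?_
      rw [hm i t, hm j t]
      exact hcon t
    · intro t
      have h1 := hrel t
      simp only [hm] at h1
      exact h1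
  · push Not at hall
    obtain ⟨i₁, ω₁, hω₁, hω₁0⟩ := hall
    set S : Finset ℂ := Finset.univ.biUnion W with hS
    have hSne : S.Nonempty := ⟨ω₁, Finset.mem_biUnion.2 ⟨i₁, Finset.mem_univ _, hω₁⟩⟩
    obtain ⟨ω₀, hω₀S, hmax⟩ := S.exists_max_image (fun ω => ‖ω‖) hSne
    obtain ⟨i₂, -, hω₀⟩ := Finset.mem_biUnion.1 hω₀S
    have hmax' : ∀ i, ∀ ν ∈ W i, ‖ν‖ ≤ ‖ω₀‖ := fun i ν hν =>
      hmax ν (Finset.mem_biUnion.2 ⟨i, Finset.mem_univ _, hν⟩)
    have hM0 : 0 < ‖ω₀‖ := (norm_pos_iff.2 hω₁0).trans_le (hmax' i₁ ω₁ hω₁)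
    have hω₀0 : ω₀ ≠ 0 := norm_pos_iff.1 hM0
    obtain ⟨u, hu0, hu1, hu2, hu3⟩ := rot hω₀0
    set M : ℝ := ‖ω₀‖ with hM
    -- the maximal degree
    obtain ⟨i₀, hi₀, hα⟩ := (Finset.univ.filter fun i => ω₀ ∈ W i).exists_max_image
      (fun i => ((p i ω₀).natDegree : ℤ) - (q i).natDegree)
      ⟨i₂, Finset.mem_filter.2 ⟨Finset.mem_univ _, hω₀⟩⟩
    have hi₀' : ω₀ ∈ W i₀ := (Finset.mem_filter.1 hi₀).2
    set α : ℤ := ((p i₀ ω₀).natDegree : ℤ) - (q i₀).natDegree with hαd
    have hα' : ∀ i, ω₀ ∈ W i → ((p i ω₀).natDegree : ℤ) - (q i).natDegree ≤ α := fun i hi =>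
      hα i (Finset.mem_filter.2 ⟨Finset.mem_univ _, hi⟩)
    have hasy : ∀ i, ∃ A v : ℂ, (A = 0 ↔ ¬ (ω₀ ∈ W i ∧
        ((p i ω₀).natDegree : ℤ) - (q i).natDegree = α)) ∧
        ∀ T : ℝ, Tendsto (fun s => (f i (u * gg α M s) - A * exp s) * s / exp s) (St T) (𝓝 v) :=
      fun i => main_asy (hq i) (hf i) (hp i) hM0 hu0 hu2
        (fun ν hν hne => hu3 ν (hmax' i ν hν) hne) α (hα' i)
    choose A v hA hv using hasy
    set F : ι → ℂ → ℂ := fun i s => f i (u * gg α M s) with hF
    have hFd : ∀ i, DifferentiableOn ℂ (F i) (U 0) := fun i => u_diff α hM0 u (hd i)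
    set h : ι → ℂ → ℂ := fun i s => F i s - A i * exp s with hh
    have hhd : ∀ i, DifferentiableOn ℂ (h i) (U 0) := fun i =>
      (hFd i).sub (differentiable_exp.differentiableOn.const_mul _)
    have hht : ∀ i, Tends 1 (v i) (h i) := fun i =>
      tends_of (by norm_num : (1 / 2 : ℝ) < 1) ((hhd i).mono (U_mono (by norm_num))) (hv i)
    set pr : ι → Prop := fun i => ω₀ ∈ W i ∧ ((p i ω₀).natDegree : ℤ) - (q i).natDegree = α with hpr
    have hApr : ∀ i, A i = 0 ↔ ¬ pr i := hA
    have main := split pr (fun i t => (Gamma (f i t))⁻¹) c N Set.univ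
      (fun t _ => hrel t) ?_ ?_
    · exact fun k hk t => main k hk t (Set.mem_univ t)
    · intro N' C hC hrel' k' hk' t _
      have hCd : Differentiable ℂ (C k') := by
        obtain ⟨N₁, hN₁, hCeq⟩ := hC k'
        rw [hCeq]
        apply Differentiable.fun_sum
        intro k hk
        apply (hc k (hN₁ hk)).diff.mul
        apply Differentiable.fun_finsetProd
        intro i _
        exact (ginv_diff (hd i.1)).pow _
      refine back α hM0 hu0 hCd ?_ t
      have D : DV 1 {i // pr i} (fun i => A i.1) (fun i => v i.1) (fun i => h i.1) := by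
        refine ⟨le_rfl, fun i h0 => (hApr i.1).1 h0 i.2, fun i => (hhd i.1).mono (U_mono zero_le_one),
          fun i => hht i.1, ?_⟩
        intro i j hij p' q' hcon
        refine hH i.1 j.1 (fun h => hij (Subtype.ext h)) p' q' fun t => ?_
        have h1 : Differentiable ℂ (fun t => f i.1 t - (p' * f j.1 t + q')) :=
          (hd i.1).sub (((hd j.1).const_mul _).add_const _)
        refine sub_eq_zero.1 (back α hM0 hu0 h1 (fun s hs => sub_eq_zero.2 ?_) t)
        have h2 := hcon s hs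
        simp only [hh, hF] at h2
        linear_combination h2
      have key := tg sepF regF regjF Pool.Agent.W688.GF.last D N' (fun k s => C k (u * gg α M s))
        ?_ ?_ k' hk'
      · exact key
      · intro k _
        obtain ⟨N₁, hN₁, hCeq⟩ := hC k
        have h6 : (fun s => C k (u * gg α M s)) = fun s => ∑ l ∈ N₁, c l (u * gg α M s) *
            ∏ i : {i // ¬ pr i}, (Gamma (F i.1 s))⁻¹ ^ l i.1 := by
          rw [hCeq]
        rw [h6]
        apply EP.sum
        intro l hl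
        obtain ⟨K, D', hK⟩ := xp_type (hc l (hN₁ hl))
        apply EP.mul (EP.of_slow (slow_of_type α hM0 u (hc l (hN₁ hl)).diff hK))
        apply EP.prod
        intro i _
        apply EP.pow
        have hA0 : A i.1 = 0 := (hApr i.1).2 i.2
        have h7 : h i.1 = F i.1 := by
          funext s
          simp only [hh, hA0, zero_mul, sub_zero]
        have h8 := hht i.1
        rw [h7] at h8
        exact lower_ep le_rfl ((hFd i.1).mono (U_mono zero_le_one)) h8
      · intro s _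
        have h1 := hrel' (u * gg α M s) (Set.mem_univ _)
        simp only [hh, add_sub_cancel]
        exact h1
    · intro N₂ c₂ hc₂ hrel₂ l hl t _
      have hcard' : Fintype.card {i : ι // ¬ pr i} < n := by
        rw [← hcard]
        apply Fintype.card_subtype_lt (x := i₀)
        rw [not_not]
        exact ⟨hi₀', rfl⟩
      refine ih _ hcard' {i : ι // ¬ pr i} rfl (fun i => f i.1) (fun i => W i.1)
        (fun i => p i.1) (fun i => q i.1) (fun i => hd i.1) (fun i => hq i.1) (fun i => hf i.1)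
        (fun i => hp i.1) (fun i => hn i.1)
        (fun i j hij => hH i.1 j.1 fun h => hij (Subtype.ext h)) N₂ c₂ ?_
        (fun t => hrel₂ t (Set.mem_univ t)) l hl t
      intro l hl
      obtain ⟨k, hk, h⟩ := hc₂ l hl
      rw [h]
      exact hc k hk

lemma xp_nonzero {f : ℂ → ℂ} (hf : XP f) : ∃ (W : Finset ℂ) (p : ℂ → Polynomial ℂ),
    (∀ t, f t = ∑ ω ∈ W, (p ω).eval t * exp (ω * t)) ∧ ∀ ω ∈ W, p ω ≠ 0 := by
  classical
  obtain ⟨W, p, h⟩ := hf
  refine ⟨W.filter fun ω => p ω ≠ 0, p, fun t => ?_, fun ω hω => (Finset.mem_filter.1 hω).2⟩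
  rw [h, Finset.sum_filter]
  refine Finset.sum_congr rfl fun ω _ => ?_
  by_cases h0 : p ω = 0
  · simp [h0]
  · simp [h0]

lemma mul_zero_entire {q : Polynomial ℂ} (hq : q ≠ 0) {f : ℂ → ℂ} (hf : Differentiable ℂ f)
    (h : ∀ t, q.eval t * f t = 0) : ∀ t, f t = 0 := by
  have h1 := Pool.Agent.W175.GF.mul_eq_zero_on (Ω := Set.univ) isOpen_univ isPreconnected_univ
    (f := fun t => q.eval t) (g := f) q.differentiable.differentiableOn hf.differentiableOn
    (fun t _ => h t)
  rcases h1 with h2 | h2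
  · exfalso
    apply hq
    exact Polynomial.funext fun t => by
      rw [Polynomial.eval_zero]
      exact h2 t (Set.mem_univ t)
  · exact fun t => h2 t (Set.mem_univ t)

/-- **The functional theorem.** For nonconstant `f i` in `QP`, no two of which are related by a
rational affine map, the functions `1/Γ (f i)` are algebraically independent over `QP`. -/
theorem funcQ {ι : Type} [Fintype ι] (f : ι → ℂ → ℂ) (hf : ∀ i, QP (f i))
    (hn : ∀ i, ∀ v : ℂ, ¬ ∀ t, f i t = v)
    (hH : ∀ i j, i ≠ j → ∀ p q : ℚ, ¬ ∀ t, f i t = p * f j t + q)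
    (N : Finset (ι → ℕ)) (c : (ι → ℕ) → ℂ → ℂ) (hc : ∀ k ∈ N, QP (c k))
    (hrel : ∀ t, ∑ k ∈ N, c k t * ∏ i, (Gamma (f i t))⁻¹ ^ k i = 0) :
    ∀ k ∈ N, ∀ t, c k t = 0 := by
  classical
  choose hfd q hq hx using hf
  have h1 := fun i => xp_nonzero (hx i)
  choose W p hW hp using h1
  choose! hcd Q hQ hcx using hc
  -- clear the denominators of the coefficients
  set P : Polynomial ℂ := ∏ k ∈ N, Q k with hP
  have hP0 : P ≠ 0 := Finset.prod_ne_zero_iff.2 hQ
  have hPc : ∀ k ∈ N, XP (fun t => P.eval t * c k t) := by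
    intro k hk
    have e1 : XP (fun t => (∏ l ∈ N.erase k, Q l).eval t * exp (0 * t)) := XP.single _ _
    have e2 := e1.mul (hcx k hk)
    have e3 : (fun t => (∏ l ∈ N.erase k, Q l).eval t * exp (0 * t) * ((Q k).eval t * c k t)) =
        fun t => P.eval t * c k t := by
      funext t
      rw [hP, ← Finset.mul_prod_erase _ _ hk, Polynomial.eval_mul, zero_mul, exp_zero]
      ring
    rwa [e3] at e2
  have key := func_aux _ ι rfl f W p q hfd hq hW hp hn hH N (fun k t => P.eval t * c k t) hPc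
    (by
      intro t
      have h2 : ∑ k ∈ N, P.eval t * c k t * ∏ i, (Gamma (f i t))⁻¹ ^ k i =
          P.eval t * ∑ k ∈ N, c k t * ∏ i, (Gamma (f i t))⁻¹ ^ k i := by
        rw [Finset.mul_sum]
        exact Finset.sum_congr rfl fun k _ => mul_assoc _ _ _
      rw [h2, hrel t, mul_zero])
  intro k hk
  exact mul_zero_entire hP0 (hcd k hk) (key k hk)

end Pool.Agent.K9h26.GH
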