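import Pool.Agent.K9h26.GH.TG
import Pool.Agent.W175.GF.Final

set_option autoImplicit false

/-!
`1/Γ` of functions of smaller growth is an exponential polynomial in `exp s`.
-/

namespace Pool.Agent.K9h26.GH

open Complex Filter Topology
open Pool.Agent.K9h26.GE (U Us Slow EP EP.of_slow EP.single EP.congr)
open Pool.Agent.W175.GF (stirF refl_id rf SE)

lemma norm_sin_le (z : ℂ) : ‖sin z‖ ≤ Real.exp ‖z‖ := by
  rw [sin]
  have h1 : ‖exp (-z * I)‖ ≤ Real.exp ‖z‖ := by
    rw [norm_exp]
    apply Real.exp_le_exp.2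
    refine (re_le_norm _).trans ?_
    rw [norm_mul, norm_I, mul_one, norm_neg]
  have h2 : ‖exp (z * I)‖ ≤ Real.exp ‖z‖ := by
    rw [norm_exp]
    apply Real.exp_le_exp.2
    refine (re_le_norm _).trans ?_
    rw [norm_mul, norm_I, mul_one]
  rw [norm_div, norm_mul, norm_I, mul_one]
  have h3 : ‖(2 : ℂ)‖ = 2 := by simp
  rw [h3, div_le_iff₀ two_pos]
  have := norm_sub_le (exp (-z * I)) (exp (z * I))
  linarith

lemma re_mul_log (z : ℂ) : (z * log z).re = z.re * Real.log ‖z‖ - z.im * arg z := by
  rw [mul_re, log_re, log_im]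

/-- global upper bound for `1/Γ` with the exact main term -/
lemma gl : ∃ A : ℝ, 0 ≤ A ∧ ∀ z : ℂ, z ≠ 0 →
    ‖(Gamma z)⁻¹‖ ≤ Real.exp (-(z * log z).re + A * ‖z‖ + A) := by
  have hpi := Real.pi_pos
  obtain ⟨C, hC⟩ := stirF (Real.pi / 4) (by positivity) (by linarith)
  obtain ⟨B, hB⟩ := (isCompact_closedBall (0 : ℂ) 2).exists_bound_of_continuousOn
    (f := fun z => (Gamma z)⁻¹) differentiable_one_div_Gamma.continuous.continuousOn
  set A : ℝ := |B| + 3 * Real.pi + 3 + |C| with hA
  have hA0 : 0 ≤ A := by positivity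
  refine ⟨A, hA0, fun z hz => ?_⟩
  have hzn : 0 < ‖z‖ := norm_pos_iff.2 hz
  rcases le_total ‖z‖ 2 with h2 | h2
  · have h3 : ‖(Gamma z)⁻¹‖ ≤ B := hB z (by simpa using h2)
    have h4 : (z * log z).re ≤ 2 + 2 * Real.pi := by
      rw [re_mul_log]
      have h5 : z.re * Real.log ‖z‖ ≤ 2 := by
        have h6 : |z.re * Real.log ‖z‖| ≤ ‖z‖ * |Real.log ‖z‖| := by
          rw [abs_mul]
          exact mul_le_mul_of_nonneg_right (abs_re_le_norm z) (abs_nonneg _)
        have h7 : ‖z‖ * |Real.log ‖z‖| ≤ 2 := by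
          rcases le_total ‖z‖ 1 with h8 | h8
          · have h9 := Real.abs_log_mul_self_lt ‖z‖ hzn h8
            rw [abs_mul, abs_of_pos hzn] at h9
            linarith
          · rw [abs_of_nonneg (Real.log_nonneg h8)]
            have h9 := Real.log_le_sub_one_of_pos hzn
            nlinarith
        linarith [le_abs_self (z.re * Real.log ‖z‖)]
      have h6 : -(z.im * arg z) ≤ 2 * Real.pi := by
        have h7 : |z.im * arg z| ≤ ‖z‖ * Real.pi := by
          rw [abs_mul]
          exact mul_le_mul (abs_im_le_norm z) (abs_arg_le_pi z) (abs_nonneg _) hzn.le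
        have h8 := neg_abs_le (z.im * arg z)
        nlinarith
      linarith
    have h5 : B ≤ Real.exp |B| := by
      have := Real.add_one_le_exp |B|
      have := le_abs_self B
      linarith
    refine (h3.trans h5).trans (Real.exp_le_exp.2 ?_)
    have h6 : 0 ≤ A * ‖z‖ := by positivity
    have h7 := abs_nonneg C
    linarith
  · have hlog : Real.log ‖z‖ ≤ ‖z‖ := by
      have := Real.log_le_sub_one_of_pos hzn
      linarith
    have hlog0 : 0 ≤ Real.log ‖z‖ := Real.log_nonneg (by linarith)
    have hClog : C * Real.log ‖z‖ ≤ |C| * ‖z‖ :=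
      (mul_le_mul_of_nonneg_right (le_abs_self C) hlog0).trans
        (mul_le_mul_of_nonneg_left hlog (abs_nonneg C))
    rcases le_or_gt 0 z.re with hre | hre
    · have h3 := hC z h2 (by
        have := abs_arg_le_pi_div_two_iff.2 hre
        linarith)
      have h4 := (abs_le.1 h3).1
      have hG0 : Gamma z ≠ 0 := by
        apply Gamma_ne_zero
        intro n hn
        rw [hn] at hre hz
        simp only [neg_re, natCast_re] at hre
        have : (n : ℝ) = 0 := le_antisymm (by linarith) (Nat.cast_nonneg n)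
        apply hz
        have h5 : (n : ℕ) = 0 := by exact_mod_cast this
        rw [h5]; simp
      have h5 : ‖(Gamma z)⁻¹‖ = Real.exp (-Real.log ‖Gamma z‖) := by
        rw [norm_inv, Real.exp_neg, Real.exp_log (norm_pos_iff.2 hG0)]
      rw [h5]
      apply Real.exp_le_exp.2
      rw [sub_re] at h4
      have h6 := re_le_norm z
      have h7 : (1 + |C|) * ‖z‖ ≤ A * ‖z‖ := by
        apply mul_le_mul_of_nonneg_right _ hzn.le
        have := abs_nonneg B
        linarith
      linarith
    · have hwre : 0 < (-z).re := by rw [neg_re]; linarith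
      have hwn : ‖-z‖ = ‖z‖ := norm_neg z
      have h3 := hC (-z) (by rw [hwn]; exact h2) (by
        have := abs_arg_lt_pi_div_two_iff.2 (Or.inl hwre)
        linarith)
      rw [hwn] at h3
      have h4 := (abs_le.1 h3).2
      have hG0 : Gamma (-z) ≠ 0 := Gamma_ne_zero_of_re_pos hwre
      have h5 : ‖Gamma (-z)‖ = Real.exp (Real.log ‖Gamma (-z)‖) :=
        (Real.exp_log (norm_pos_iff.2 hG0)).symm
      have h6 : (Gamma z)⁻¹ = rf z * Gamma (-z) := by
        unfold rf
        rw [← refl_id z, mul_assoc, inv_mul_cancel₀ hG0, mul_one]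
      have h7 : ‖rf z‖ ≤ Real.exp ‖z‖ * Real.exp (Real.pi * ‖z‖) := by
        unfold rf
        rw [norm_div, norm_mul, norm_neg, norm_real, Real.norm_eq_abs, abs_of_pos hpi]
        have h8 := norm_sin_le (Real.pi * z)
        rw [norm_mul, norm_real, Real.norm_eq_abs, abs_of_pos hpi] at h8
        have h9 : ‖z‖ ≤ Real.exp ‖z‖ := by
          have := Real.add_one_le_exp ‖z‖
          linarith
        have h10 : ‖z‖ * ‖sin (Real.pi * z)‖ ≤ Real.exp ‖z‖ * Real.exp (Real.pi * ‖z‖) :=
          mul_le_mul h9 h8 (norm_nonneg _) (Real.exp_pos _).le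
        refine (div_le_self (by positivity) ?_).trans h10
        linarith [Real.pi_gt_three]
      rw [h6, norm_mul, h5]
      calc ‖rf z‖ * Real.exp (Real.log ‖Gamma (-z)‖) ≤
          (Real.exp ‖z‖ * Real.exp (Real.pi * ‖z‖)) * Real.exp (Real.log ‖Gamma (-z)‖) :=
            mul_le_mul_of_nonneg_right h7 (Real.exp_pos _).le
        _ = Real.exp (‖z‖ + Real.pi * ‖z‖ + Real.log ‖Gamma (-z)‖) := by
            rw [Real.exp_add, Real.exp_add]
        _ ≤ _ := by
            apply Real.exp_le_exp.2
            rw [sub_re, re_mul_log, neg_re, neg_im, hwn] at h4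
            rw [re_mul_log]
            have e1 : z.im * arg (-z) ≤ ‖z‖ * Real.pi := by
              refine (le_abs_self _).trans ?_
              rw [abs_mul]
              exact mul_le_mul (abs_im_le_norm z) (abs_arg_le_pi _) (abs_nonneg _) hzn.le
            have e2 : -(z.im * arg z) ≤ ‖z‖ * Real.pi := by
              refine (neg_le_abs _).trans ?_
              rw [abs_mul]
              exact mul_le_mul (abs_im_le_norm z) (abs_arg_le_pi _) (abs_nonneg _) hzn.le
            have e3 := re_le_norm z
            have h7 : (3 * Real.pi + 3 + |C|) * ‖z‖ ≤ A * ‖z‖ := by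
              apply mul_le_mul_of_nonneg_right _ hzn.le
              have := abs_nonneg B
              linarith
            have e4 : 0 ≤ ‖z‖ * Real.pi := by positivity
            have e5 : z.im * arg z ≤ ‖z‖ * Real.pi := by
              refine (le_abs_self _).trans ?_
              rw [abs_mul]
              exact mul_le_mul (abs_im_le_norm z) (abs_arg_le_pi _) (abs_nonneg _) hzn.le
            nlinarith

/-- the elementary inequality behind `lower_ep` -/
lemma ylog {K : ℝ} (hK : 0 ≤ K) (ε : ℝ) (hε : 0 < ε) :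
    ∃ C : ℝ, ∀ x y : ℝ, 1 < x → 0 < y → y * x ≤ K * Real.exp x →
      y * |x - Real.log y| ≤ ε * Real.exp x + C := by
  set X : ℝ := max K (4 * K / ε ^ 2) with hX
  refine ⟨Real.exp X * (1 + K ^ 2), fun x y hx hy hxy => ?_⟩
  have he := Real.exp_pos x
  set q : ℝ := y / Real.exp x with hq
  have hq0 : 0 < q := by positivity
  have hyq : y = Real.exp x * q := by rw [hq]; field_simp
  have hlog : x - Real.log y = -Real.log q := by
    rw [hyq, Real.log_mul he.ne' hq0.ne', Real.log_exp]; ring
  have hqx : q * x ≤ K := by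
    rw [hq, div_mul_eq_mul_div, div_le_iff₀ he]
    exact hxy
  rw [hlog, abs_neg, hyq]
  rcases le_total X x with h1 | h1
  · have hxK : K ≤ x := (le_max_left _ _).trans h1
    have hx4 : 4 * K / ε ^ 2 ≤ x := (le_max_right _ _).trans h1
    have hq1 : q ≤ 1 := by nlinarith
    set w : ℝ := Real.sqrt q with hw
    have hw0 : 0 < w := Real.sqrt_pos.2 hq0
    have hw2 : w * w = q := Real.mul_self_sqrt hq0.le
    have hw1 : w ≤ 1 := Real.sqrt_le_one.2 hq1
    have h2 := Real.abs_log_mul_self_lt w hw0 hw1
    have h3 : Real.log q = 2 * Real.log w := by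
      rw [← hw2, Real.log_mul hw0.ne' hw0.ne']; ring
    have h4 : q * |Real.log q| ≤ 2 * w := by
      rw [h3, abs_mul, abs_of_pos (two_pos), ← hw2]
      rw [abs_mul, abs_of_pos hw0] at h2
      nlinarith
    have h5 : 2 * w ≤ ε := by
      rw [div_le_iff₀ (by positivity)] at hx4
      -- 4 q ≤ ε²
      have h6 : 4 * q ≤ ε ^ 2 := by
        have h7 : 4 * (q * x) ≤ x * ε ^ 2 := by linarith
        have h8 : 0 < x := by linarith
        by_contra hcon
        push Not at hcon
        nlinarith
      have h9 : (2 * w) ^ 2 ≤ ε ^ 2 := by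
        have : (2 * w) ^ 2 = 4 * q := by rw [← hw2]; ring
        rw [this]; exact h6
      exact (abs_le_of_sq_le_sq' h9 hε.le).2
    have h10 : 0 ≤ Real.exp X * (1 + K ^ 2) := by positivity
    have h11 : Real.exp x * q * |Real.log q| ≤ Real.exp x * ε := by
      rw [mul_assoc]
      exact mul_le_mul_of_nonneg_left (h4.trans h5) he.le
    linarith
  · have hqK : q ≤ K := by nlinarith
    have h2 : q * |Real.log q| ≤ 1 + K ^ 2 := by
      rcases le_total q 1 with h3 | h3
      · have h4 := Real.abs_log_mul_self_lt q hq0 h3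
        rw [abs_mul, abs_of_pos hq0] at h4
        nlinarith [sq_nonneg K]
      · rw [abs_of_nonneg (Real.log_nonneg h3)]
        have h4 := Real.log_le_sub_one_of_pos hq0
        nlinarith
    have h3 : Real.exp x ≤ Real.exp X := Real.exp_le_exp.2 h1
    have h4 : Real.exp x * q * |Real.log q| ≤ Real.exp X * (1 + K ^ 2) := by
      rw [mul_assoc]
      exact mul_le_mul h3 h2 (by positivity) (Real.exp_pos _).le
    have h5 : 0 ≤ ε * Real.exp x := by positivity
    linarith

/-- `1/Γ` of functions of smaller growth -/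
lemma lower_ep {r : ℝ} (hr : 1 ≤ r) {v : ℂ} {F : ℂ → ℂ} (hF : DifferentiableOn ℂ F (U r))
    (hT : Tends r v F) : EP r (fun s => (Gamma (F s))⁻¹) := by
  have key : Slow r (fun s => (Gamma (F s))⁻¹ * exp (v * exp s)) := by
    refine ⟨(differentiable_one_div_Gamma.comp_differentiableOn hF).mul
      (differentiable_exp.differentiableOn.const_mul v).cexp, fun T ε hε => ?_⟩
    obtain ⟨A, hA0, hA⟩ := gl
    obtain ⟨C₁, hC₁⟩ := hT T 1 one_pos
    obtain ⟨C₂, hC₂⟩ := hT T (ε / 4) (by positivity)
    obtain ⟨C₃, hC₃⟩ := hT.small hr T (ε / (4 * (A + |T| + Real.pi + 1))) (by positivity)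
    obtain ⟨C₄, hC₄⟩ := ylog (K := ‖v‖ + 1 + |C₁|) (by positivity) (ε / 4) (by positivity)
    have hA1 : 0 < A + |T| + Real.pi + 1 := by positivity
    refine ⟨Real.exp (A + |C₂| + (A + |T| + Real.pi + 1) * |C₃| + |C₄|), fun s hs => ?_⟩
    have hx1 : 1 < s.re := lt_of_le_of_lt hr hs.1
    have hn : s.re ≤ ‖s‖ := re_le_norm s
    have hTT : |s.im| ≤ |T| := hs.2.trans (le_abs_self T)
    simp only
    rcases eq_or_ne (F s) 0 with h0 | h0
    · rw [h0, Gamma_zero, inv_zero, zero_mul, norm_zero]
      positivity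
    · have hy : 0 < ‖F s‖ := norm_pos_iff.2 h0
      have he1 : 1 ≤ Real.exp s.re := Real.one_le_exp (by linarith)
      have hyx : ‖F s‖ * s.re ≤ (‖v‖ + 1 + |C₁|) * Real.exp s.re := by
        have h1 : ‖F s‖ * ‖s‖ ≤ ‖v‖ * Real.exp s.re + (1 * Real.exp s.re + C₁) := by
          rw [← norm_mul]
          calc ‖F s * s‖ = ‖v * exp s + (F s * s - v * exp s)‖ := by congr 1; ring
            _ ≤ ‖v * exp s‖ + ‖F s * s - v * exp s‖ := norm_add_le _ _
            _ ≤ _ := by
                apply add_le_add _ (hC₁ s hs)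
                rw [norm_mul, norm_exp]
        have h2 := mul_le_mul_of_nonneg_left hn hy.le
        have h3 := le_abs_self C₁
        have h4 : |C₁| ≤ |C₁| * Real.exp s.re := le_mul_of_one_le_right (abs_nonneg _) he1
        linarith
      have e1 := hA (F s) h0
      have e2 := hC₂ s hs
      have e3 := hC₃ s hs
      have e4 := hC₄ s.re ‖F s‖ hx1 hy hyx
      have e5 : ‖s - log (F s)‖ ≤ |s.re - Real.log ‖F s‖| + (|T| + Real.pi) := by
        refine (norm_le_abs_re_add_abs_im _).trans ?_
        rw [sub_re, sub_im, log_re, log_im]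
        have h1 := abs_sub s.im (arg (F s))
        have h2 := abs_arg_le_pi (F s)
        linarith
      have e6 : -(F s * log (F s)).re + (v * exp s).re ≤
          ‖F s * s - v * exp s‖ + ‖F s‖ * ‖s - log (F s)‖ := by
        have h1 : -(F s * log (F s)).re + (v * exp s).re =
            (-(F s * s - v * exp s) + F s * (s - log (F s))).re := by
          rw [← neg_re, ← add_re]
          congr 1
          ring
        rw [h1]
        refine (re_le_norm _).trans ((norm_add_le _ _).trans ?_)
        rw [norm_neg, norm_mul]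
      have e7 : ‖F s‖ * ‖s - log (F s)‖ ≤ ‖F s‖ * |s.re - Real.log ‖F s‖| +
          (|T| + Real.pi) * ‖F s‖ := by
        have := mul_le_mul_of_nonneg_left e5 hy.le
        linarith
      have e8 : (A + |T| + Real.pi + 1) * ‖F s‖ ≤ ε / 4 * Real.exp s.re +
          (A + |T| + Real.pi + 1) * |C₃| := by
        have h1 := mul_le_mul_of_nonneg_left e3 hA1.le
        have h2 : (A + |T| + Real.pi + 1) * (ε / (4 * (A + |T| + Real.pi + 1)) * Real.exp s.re + C₃)
            = ε / 4 * Real.exp s.re + (A + |T| + Real.pi + 1) * C₃ := by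
          field_simp
        rw [h2] at h1
        have h3 := mul_le_mul_of_nonneg_left (le_abs_self C₃) hA1.le
        linarith
      rw [norm_mul, norm_exp, ← Real.exp_add]
      refine (mul_le_mul_of_nonneg_right e1 (Real.exp_pos _).le).trans ?_
      rw [← Real.exp_add]
      apply Real.exp_le_exp.2
      have h1 := le_abs_self C₂
      have h2 := le_abs_self C₄
      have h3 : 0 ≤ ε / 4 * Real.exp s.re := by positivity
      have h4 : 0 ≤ ‖F s‖ := hy.le
      linarith
  refine (EP.single key (-v)).congr fun s _ => ?_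
  rw [mul_assoc, ← exp_add, neg_mul, add_neg_cancel, exp_zero, mul_one]

end Pool.Agent.K9h26.GH
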