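import Pool.Agent.K9h26.GH.Func
import Pool.Agent.K9h26.GE.Num

set_option autoImplicit false

/-!
Quotients of exponential polynomials; from functions to numbers.
-/

namespace Pool.Agent.K9h26.GE

open Complex Filter Topology Set

lemma xp_poly (q : Polynomial ℂ) : XP (fun t => q.eval t) := by
  have h := XP.single q 0
  have e : (fun t => q.eval t * exp (0 * t)) = fun t => q.eval t := by
    funext t
    rw [zero_mul, exp_zero, mul_one]
  rwa [e] at h

lemma exists_mul {P Q : ℂ → ℂ} (hP : Differentiable ℂ P) (hQ : Differentiable ℂ Q)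
    (h1 : ∃ t, P t ≠ 0) (h2 : ∃ t, Q t ≠ 0) : ∃ t, P t * Q t ≠ 0 := by
  by_contra hcon
  push Not at hcon
  rcases Pool.Agent.W175.GF.mul_eq_zero_on (Ω := Set.univ) isOpen_univ isPreconnected_univ
    hP.differentiableOn hQ.differentiableOn (fun t _ => hcon t) with h3 | h3
  · obtain ⟨t, ht⟩ := h1
    exact ht (h3 t (mem_univ t))
  · obtain ⟨t, ht⟩ := h2
    exact ht (h3 t (mem_univ t))

lemma EQ.of_xp {f : ℂ → ℂ} (hf : XP f) : EQ f :=
  ⟨f, fun _ => 1, hf, XP.const 1, ⟨0, one_ne_zero⟩, fun t _ => by rw [div_one]⟩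

lemma EQ.add {f g : ℂ → ℂ} (hf : EQ f) (hg : EQ g) : EQ (fun t => f t + g t) := by
  obtain ⟨P, Q, hP, hQ, hQ0, h⟩ := hf
  obtain ⟨P', Q', hP', hQ', hQ0', h'⟩ := hg
  refine ⟨fun t => P t * Q' t + P' t * Q t, fun t => Q t * Q' t, (hP.mul hQ').add (hP'.mul hQ),
    hQ.mul hQ', exists_mul hQ.diff hQ'.diff hQ0 hQ0', fun t ht => ?_⟩
  have h1 : Q t ≠ 0 := left_ne_zero_of_mul ht
  have h2 : Q' t ≠ 0 := right_ne_zero_of_mul ht
  show f t + g t = (P t * Q' t + P' t * Q t) / (Q t * Q' t)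
  rw [h t h1, h' t h2]
  field_simp

lemma EQ.mul {f g : ℂ → ℂ} (hf : EQ f) (hg : EQ g) : EQ (fun t => f t * g t) := by
  obtain ⟨P, Q, hP, hQ, hQ0, h⟩ := hf
  obtain ⟨P', Q', hP', hQ', hQ0', h'⟩ := hg
  refine ⟨fun t => P t * P' t, fun t => Q t * Q' t, hP.mul hP',
    hQ.mul hQ', exists_mul hQ.diff hQ'.diff hQ0 hQ0', fun t ht => ?_⟩
  have h1 : Q t ≠ 0 := left_ne_zero_of_mul ht
  have h2 : Q' t ≠ 0 := right_ne_zero_of_mul ht
  show f t * g t = P t * P' t / (Q t * Q' t)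
  rw [h t h1, h' t h2]
  field_simp

lemma QP.eq {f : ℂ → ℂ} (hf : QP f) : EQ f := by
  obtain ⟨-, q, hq, hx⟩ := hf
  refine ⟨_, fun t => q.eval t, hx, xp_poly q, ?_, fun t ht => ?_⟩
  · by_contra hcon
    push Not at hcon
    exact hq (Polynomial.funext fun t => by rw [hcon t, Polynomial.eval_zero])
  · field_simp

lemma QP.of_xp {f : ℂ → ℂ} (hf : XP f) : QP f := by
  refine ⟨hf.diff, 1, one_ne_zero, ?_⟩
  simpa using hf

end Pool.Agent.K9h26.GE

namespace Pool.Agent.K9h26.GH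

open Complex Filter Topology Set
open scoped Cardinal
open Pool.Agent.K9h76.GM
open Pool.Agent.K9h26.GE (XP QP EQ eqField van_diff van_of_zero pole_nonconst ginv_diff)

lemma ev_near {Q : ℂ → ℂ} (hQ : Differentiable ℂ Q) (h0 : ∃ t, Q t ≠ 0) (p : ℂ) :
    ∀ᶠ t in 𝓝[≠] p, Q t ≠ 0 := by
  rcases (hQ.analyticAt p).eventually_eq_zero_or_eventually_ne_zero with h | h
  · exfalso
    have ha : AnalyticOnNhd ℂ Q Set.univ := hQ.differentiableOn.analyticOnNhd isOpen_univ
    have h1 := ha.eqOn_zero_of_preconnected_of_eventuallyEq_zero isPreconnected_univ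
      (Set.mem_univ p) h
    obtain ⟨t, ht⟩ := h0
    exact ht (h1 (mem_univ t))
  · exact h

/-- the functional theorem with quotients as coefficients -/
theorem funcV {ι : Type} [Fintype ι] (f : ι → ℂ → ℂ) (hf : ∀ i, QP (f i))
    (hn : ∀ i, ∀ v : ℂ, ¬ ∀ t, f i t = v)
    (hH : ∀ i j, i ≠ j → ∀ p q : ℚ, ¬ ∀ t, f i t = p * f j t + q)
    (N : Finset (ι → ℕ)) (c : (ι → ℕ) → ℂ → ℂ) (hc : ∀ k ∈ N, EQ (c k))
    (hrel : Van univ (fun t => ∑ k ∈ N, c k t * ∏ i, (Gamma (f i t))⁻¹ ^ k i)) :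
    ∀ k ∈ N, Van univ (c k) := by
  classical
  choose! P Q hP hQ hQ0 heq using hc
  set R : (ι → ℕ) → ℂ → ℂ := fun k t => P k t * ∏ l ∈ N.erase k, Q l t with hR
  have hprod : ∀ S : Finset (ι → ℕ), S ⊆ N → XP (fun t => ∏ l ∈ S, Q l t) := by
    intro S
    induction S using Finset.induction_on with
    | empty => intro _; simpa using XP.const 1
    | insert a S ha ih =>
      intro hS
      have h1 := (hQ a (hS (Finset.mem_insert_self a S))).mul
        (ih fun b hb => hS (Finset.mem_insert_of_mem hb))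
      have h2 : (fun t => Q a t * ∏ l ∈ S, Q l t) = fun t => ∏ l ∈ insert a S, Q l t := by
        funext t
        rw [Finset.prod_insert ha]
      rwa [h2] at h1
  have hRx : ∀ k ∈ N, XP (R k) := fun k hk => (hP k hk).mul (hprod _ (Finset.erase_subset _ _))
  have hnear : ∀ p : ℂ, ∀ᶠ t in 𝓝[≠] p, ∀ l ∈ N, Q l t ≠ 0 := by
    intro p
    rw [Filter.eventually_all_finset]
    intro l hl
    exact ev_near (hQ l hl).diff (hQ0 l hl) p
  have hT : ∀ t, ∑ k ∈ N, R k t * ∏ i, (Gamma (f i t))⁻¹ ^ k i = 0 := by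
    apply van_diff
    · apply Differentiable.fun_sum
      intro k hk
      apply (hRx k hk).diff.mul
      apply Differentiable.fun_finsetProd
      intro i _
      exact (ginv_diff (hf i).1).pow _
    · intro p hp
      filter_upwards [hnear p, hrel p hp] with t h1 h2
      have h3 : ∑ k ∈ N, R k t * ∏ i, (Gamma (f i t))⁻¹ ^ k i =
          (∏ l ∈ N, Q l t) * ∑ k ∈ N, c k t * ∏ i, (Gamma (f i t))⁻¹ ^ k i := by
        rw [Finset.mul_sum]
        refine Finset.sum_congr rfl fun k hk => ?_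
        rw [heq k hk t (h1 k hk), ← Finset.mul_prod_erase _ _ hk]
        simp only [hR]
        have := h1 k hk
        field_simp
      rw [h3, h2, mul_zero]
  have key := funcQ f hf hn hH N R (fun k hk => QP.of_xp (hRx k hk)) hT
  intro k hk p _
  filter_upwards [hnear p] with t h1
  have h2 := key k hk t
  simp only [hR] at h2
  have h3 : ∏ l ∈ N.erase k, Q l t ≠ 0 :=
    Finset.prod_ne_zero_iff.2 fun l hl => h1 l (Finset.mem_of_mem_erase hl)
  rw [heq k hk t (h1 k hk), (mul_eq_zero.1 h2).resolve_right h3, zero_div]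

variable {F : Type} [Field F] [Algebra F ℂ]

lemma ev_eq {𝓔 : Set (ℂ → ℂ)} (h𝓔 : ∀ g ∈ 𝓔, EQ g) (q : MvPolynomial 𝓔 F) :
    EQ (fun t => ev F 𝓔 t q) := by
  induction q using MvPolynomial.induction_on with
  | C a =>
    have : (fun t => ev F 𝓔 t (MvPolynomial.C a)) = fun _ => (algebraMap F ℂ a) := by
      funext t
      simp [ev]
    rw [this]
    exact EQ.of_xp (XP.const _)
  | add p q hp hq =>
    have : (fun t => ev F 𝓔 t (p + q)) = fun t => ev F 𝓔 t p + ev F 𝓔 t q := by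
      funext t
      rw [map_add]
    rw [this]
    exact hp.add hq
  | mul_X p g hp =>
    have : (fun t => ev F 𝓔 t (p * MvPolynomial.X g)) = fun t => ev F 𝓔 t p * g.1 t := by
      funext t
      rw [map_mul]
      simp [ev]
    rw [this]
    exact hp.mul (h𝓔 g.1 g.2)

lemma Phi_van' {𝓔 : Set (ℂ → ℂ)} (h𝓔 : ∀ g ∈ 𝓔, EQ g) {n : ℕ}
    (f : Fin n → 𝓔) (hG : ∀ i, QP (f i).1) (hn : ∀ i, ∀ v : ℂ, ¬ ∀ t, (f i).1 t = v)
    (hH : ∀ i j, i ≠ j → ∀ a b : ℚ, ¬ ∀ t, (f i).1 t = a * (f j).1 t + b)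
    (P : MvPolynomial (Fin n) (MvPolynomial 𝓔 F)) (hP : Van univ (Phi f P)) (k : Fin n →₀ ℕ) :
    Van univ (fun t => ev F 𝓔 t (P.coeff k)) := by
  classical
  by_cases hk : k ∈ P.support
  · let cf : (Fin n →₀ ℕ) → (Fin n → ℕ) := fun k i => k i
    have hcf : ∀ k, Finsupp.equivFunOnFinite.symm (cf k) = k := fun k => by ext; simp [cf]
    have hinj : Function.Injective cf := fun a b h => by
      rw [← hcf a, ← hcf b, h]
    have h1 := funcV (fun i => (f i).1) hG hn hH (P.support.image cf)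
      (fun l t => ev F 𝓔 t (P.coeff (Finsupp.equivFunOnFinite.symm l)))
      (fun l _ => ev_eq h𝓔 _) ?_ (cf k) (Finset.mem_image_of_mem _ hk)
    · simp only [hcf] at h1
      exact h1
    · intro p hp
      filter_upwards [hP p hp] with t ht
      rw [Phi_eq] at ht
      rw [Finset.sum_image (fun k₁ _ k₂ _ h => hinj h), ← ht]
      refine Finset.sum_congr rfl fun l _ => ?_
      rw [hcf]
  · intro p _
    refine Eventually.of_forall fun t => ?_
    change ev F 𝓔 t (P.coeff k) = 0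
    rw [MvPolynomial.notMem_support_iff.1 hk, map_zero]

open scoped IntermediateField.algebraAdjoinAdjoin in
/-- off the exceptional set the values of `Γ` are algebraically independent over the field
generated by the values of the family -/
theorem algInd' {𝓔 : Set (ℂ → ℂ)} (h𝓔 : ∀ g ∈ 𝓔, EQ g)
    {t : ℂ} (hE : t ∉ Exc F 𝓔 univ) {n : ℕ}
    (f : Fin n → 𝓔) (hG : ∀ i, QP (f i).1) (hn : ∀ i, ∀ v : ℂ, ¬ ∀ t, (f i).1 t = v)
    (hH : ∀ i j, i ≠ j → ∀ a b : ℚ, (f i).1 t ≠ a * (f j).1 t + b) :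
    AlgebraicIndependent (vals F 𝓔 t) (fun i => Gamma ((f i).1 t)) := by
  have hH' : ∀ i j, i ≠ j → ∀ a b : ℚ, ¬ ∀ t, (f i).1 t = a * (f j).1 t + b :=
    fun i j hij a b hv => hH i j hij a b (hv t)
  set S : Set ℂ := Set.range fun g : 𝓔 => g.1 t with hS
  have key : AlgebraicIndependent (Algebra.adjoin F S)
      (fun i => (Gamma ((f i).1 t))⁻¹) := by
    have hmem : ∀ q, ev F 𝓔 t q ∈ Algebra.adjoin F S := by
      intro q
      rw [hS, Algebra.adjoin_range_eq_range_aeval]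
      exact ⟨q, rfl⟩
    let φ : MvPolynomial 𝓔 F →ₐ[F] Algebra.adjoin F S := (ev F 𝓔 t).codRestrict _ hmem
    have hφ : Function.Surjective φ := by
      rintro ⟨x, hx⟩
      have hx' := hx
      rw [hS, Algebra.adjoin_range_eq_range_aeval] at hx'
      obtain ⟨q, hq⟩ := hx'
      exact ⟨q, Subtype.ext hq⟩
    rw [algebraicIndependent_iff]
    intro p hp
    obtain ⟨P, rfl⟩ := MvPolynomial.map_surjective φ.toRingHom hφ p
    have h1 : Phi f P t = 0 := by
      rw [Phi, ← hp, MvPolynomial.aeval_def, MvPolynomial.eval₂_map]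
      rfl
    have h2 := Phi_van' h𝓔 f hG hn hH' P ((Phi_iff (mem_univ t) hE f P).1 h1)
    ext k
    have h3 := (ev_iff (mem_univ t) hE _).2 (h2 k)
    rw [MvPolynomial.coeff_map, MvPolynomial.coeff_zero]
    exact h3
  have key2 : AlgebraicIndependent (vals F 𝓔 t) (fun i => (Gamma ((f i).1 t))⁻¹) :=
    key.extendScalars (IntermediateField.adjoin F S)
  have := algInd_inv key2
  simpa only [inv_inv] using this

lemma entire_nonconst {f : ℂ → ℂ} (hf : Differentiable ℂ f) (hn : ∀ v : ℂ, ¬ ∀ t, f t = v) :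
    NonConst univ f := by
  intro v
  have h := hn v
  push Not at h
  obtain ⟨t, ht⟩ := h
  exact ⟨t, mem_univ t, hf.analyticAt t, ht⟩

lemma entire_noPole {f : ℂ → ℂ} (hf : Differentiable ℂ f) : ¬ HasPole univ f := by
  rintro ⟨p, -, ho⟩
  have h1 := (hf.analyticAt p).meromorphicOrderAt_nonneg
  exact absurd ho (not_lt.2 h1)

lemma vals_eq {𝓜 : Set (ℂ → ℂ)} {t : ℂ} : vals F {g | g ∈ 𝓜 ∧ EQ g} t = eqField F 𝓜 t := by
  unfold vals eqField
  congr 1
  ext x
  constructor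
  · rintro ⟨⟨g, hg, hx⟩, rfl⟩
    exact ⟨g, hg, hx, rfl⟩
  · rintro ⟨g, hg, hx, rfl⟩
    exact ⟨⟨g, hg, hx⟩, rfl⟩

/-- algebraic independence in two steps -/
lemma glue {n : ℕ} {K V : IntermediateField F ℂ} (hKV : K ≤ V) (pr : Fin n → Prop)
    (x : Fin n → ℂ) (h1 : AlgebraicIndependent K (fun i : {i // ¬ pr i} => x i))
    (hmem : ∀ i, ¬ pr i → x i ∈ V) (h2 : AlgebraicIndependent V (fun i : {i // pr i} => x i)) :
    AlgebraicIndependent K x := by
  classical
  let _ : Algebra K V := (IntermediateField.inclusion hKV).toAlgebra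
  have : IsScalarTower K V ℂ := IsScalarTower.of_algebraMap_eq fun _ => rfl
  have h3 : AlgebraicIndependent K (fun i : {i // ¬ pr i} => (⟨x i, hmem i i.2⟩ : V)) := by
    apply AlgebraicIndependent.of_comp (IsScalarTower.toAlgHom K V ℂ)
    exact h1
  have h4 := AlgebraicIndependent.sumElim_comp (R := K) (S := V) (A := ℂ) h3 h2
  have h5 := h4.comp (Equiv.sumCompl pr).symm (Equiv.injective _)
  convert h5 using 1
  funext i
  by_cases hi : pr i
  · simp only [Function.comp, Equiv.sumCompl_symm_apply_of_pos hi, Sum.elim_inl]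
  · simp only [Function.comp, Equiv.sumCompl_symm_apply_of_neg hi, Sum.elim_inr]
    rfl

theorem numMain [Countable F] {𝓜 : Set (ℂ → ℂ)} (hcount : 𝓜.Countable)
    (h𝓜 : ∀ g ∈ 𝓜, MeromorphicOn g univ) :
    ∃ S : Set ℂ, S.Countable ∧ ∀ t ∉ S, ∀ (n : ℕ) (f : Fin n → ℂ → ℂ), (∀ i, f i ∈ 𝓜) →
      (∀ i, HasPole univ (f i) ∨ (QP (f i) ∧ ∀ v : ℂ, ∃ s, f i s ≠ v)) →
      (∀ i j, i ≠ j → ∀ a b : ℚ, f i t ≠ a * f j t + b) →
      AlgebraicIndependent (eqField F 𝓜 t) (fun i => Gamma (f i t)) ∧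
      (n : Cardinal) + Algebra.trdeg F (IntermediateField.adjoin F
          (range fun i : {i // EQ (f i)} => f i t)) ≤
        Algebra.trdeg F (IntermediateField.adjoin F
          (range (fun i => f i t) ∪ range fun i => Gamma (f i t))) ∧
      (1 ≤ n → ((n + 1 : ℕ) : Cardinal) ≤ Algebra.trdeg F (IntermediateField.adjoin F
          (range (fun i => f i t) ∪ range fun i => Gamma (f i t)))) := by
  classical
  set 𝓔 : Set (ℂ → ℂ) := {g | g ∈ 𝓜 ∧ EQ g} with h𝓔d
  have h𝓔 : ∀ g ∈ 𝓔, EQ g := fun g hg => hg.2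
  have h𝓔m : ∀ g ∈ 𝓔, MeromorphicOn g univ := fun g hg => h𝓜 g hg.1
  have h𝓔c : 𝓔.Countable := hcount.mono fun g hg => hg.1
  obtain ⟨S₁, hS₁, hmain⟩ := main (F := F) isOpen_univ isPreconnected_univ hcount h𝓜
  refine ⟨S₁ ∪ Exc F 𝓔 univ ∪ ⋃ g : 𝓔, {t | t ∈ univ ∧ NonConst univ g.1 ∧ IsAlgebraic F (g.1 t)},
    ?_, ?_⟩
  · refine (hS₁.union (Exc_countable h𝓔c isOpen_univ isPreconnected_univ h𝓔m)).union ?_
    have : Countable 𝓔 := h𝓔c.to_subtype
    refine countable_iUnion fun g => ?_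
    by_cases hg : NonConst univ g.1
    · refine Countable.mono ?_ (preim_countable isOpen_univ isPreconnected_univ (h𝓔m _ g.2) hg
        (Algebraic.countable F ℂ))
      rintro t ⟨h1, -, h2⟩
      exact ⟨h1, h2⟩
    · convert countable_empty (α := ℂ)
      ext t
      simp only [mem_ofPred_eq, mem_empty_iff_false, iff_false]
      exact fun h => hg h.2.1
  intro t htS n f hf hGP hH
  have ht1 : t ∉ S₁ := fun h => htS (Or.inl (Or.inl h))
  have hE : t ∉ Exc F 𝓔 univ := fun h => htS (Or.inl (Or.inr h))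
  have hB : ∀ g ∈ 𝓔, NonConst univ g → ¬ IsAlgebraic F (g t) := fun g hg hn h =>
    htS (Or.inr (mem_iUnion_of_mem (⟨g, hg⟩ : 𝓔) ⟨mem_univ t, hn, h⟩))
  obtain ⟨hpole, -, hmain3⟩ := hmain t (mem_univ t) ht1 n f hf hH
  have hG : ∀ i, ¬ HasPole univ (f i) → QP (f i) ∧ ∀ v : ℂ, ¬ ∀ s, f i s = v := by
    intro i hi
    rcases hGP i with h | ⟨h, h'⟩
    · exact absurd h hi
    · refine ⟨h, fun v hcon => ?_⟩
      obtain ⟨s, hs⟩ := h' v
      exact hs (hcon s)
  have hGE : ∀ i, ¬ HasPole univ (f i) → f i ∈ 𝓔 := fun i h => ⟨hf i, (hG i h).1.eq⟩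
  have h1 : AlgebraicIndependent (eqField F 𝓜 t)
      (fun i : {i // ¬ HasPole univ (f i)} => Gamma (f i t)) := by
    let e := Fintype.equivFin {i // ¬ HasPole univ (f i)}
    have h := algInd' (F := F) h𝓔 hE
      (fun k => (⟨f (e.symm k).1, hGE _ (e.symm k).2⟩ : 𝓔)) (fun k => (hG _ (e.symm k).2).1)
      (fun k => (hG _ (e.symm k).2).2)
      (fun i j hij => hH _ _ fun h => hij (e.symm.injective (Subtype.ext h)))
    have hv : vals F 𝓔 t = eqField F 𝓜 t := vals_eq
    rw [hv] at h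
    have h' := h.comp e e.injective
    simpa [Function.comp_def] using h'
  have hKV : eqField F 𝓜 t ≤ valueField F univ 𝓜 t := by
    unfold eqField valueField
    apply IntermediateField.adjoin.mono
    rintro x ⟨g, hg, -, rfl⟩
    exact Or.inl ⟨g, hg, rfl⟩
  have hall : AlgebraicIndependent (eqField F 𝓜 t) (fun i => Gamma (f i t)) := by
    refine glue hKV (fun i => HasPole univ (f i)) _ h1 (fun i hi => ?_) hpole
    exact IntermediateField.subset_adjoin _ _ (Or.inr ⟨f i, hf i, hi, rfl⟩)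
  set z : Fin n → ℂ := fun i => f i t with hz
  set M := IntermediateField.adjoin F (range z ∪ range fun i => Gamma (z i)) with hM
  have hzM : ∀ i, z i ∈ M := fun i => IntermediateField.subset_adjoin _ _ (Or.inl ⟨i, rfl⟩)
  have hGM : ∀ i, Gamma (z i) ∈ M := fun i =>
    IntermediateField.subset_adjoin _ _ (Or.inr ⟨i, rfl⟩)
  have hzX : ∀ i, EQ (f i) → z i ∈ eqField F 𝓜 t := fun i hi =>
    IntermediateField.subset_adjoin _ _ ⟨f i, hf i, hi, rfl⟩
  have hadd : (n : Cardinal) + Algebra.trdeg F (IntermediateField.adjoin F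
      (range fun i : {i // EQ (f i)} => f i t)) ≤ Algebra.trdeg F M := by
    have h2 := add_le_trdeg (L := IntermediateField.adjoin F
      (range fun i : {i // EQ (f i)} => f i t)) (L' := eqField F 𝓜 t)
      (M := M) (IntermediateField.adjoin_le_iff.2 ?_) (IntermediateField.adjoin_le_iff.2 ?_) hall
      hGM
    · rwa [Cardinal.mk_fin] at h2
    · rintro x ⟨i, rfl⟩
      exact hzX i i.2
    · rintro x ⟨i, rfl⟩
      exact hzM i
  refine ⟨hall, hadd, fun hn => ?_⟩
  by_cases hQ : ∃ i, ¬ HasPole univ (f i)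
  · obtain ⟨i₀, hi₀⟩ := hQ
    have hnc : NonConst univ (f i₀) := entire_nonconst (hG i₀ hi₀).1.1 (hG i₀ hi₀).2
    have h5 : AlgebraicIndependent F (fun _ : Unit => z i₀) :=
      algebraicIndependent_unique_type_iff.2 (hB _ (hGE _ hi₀) hnc)
    have h6 := card_le_trdeg h5 (M := IntermediateField.adjoin F
      (range fun i : {i // EQ (f i)} => f i t))
      (fun _ => IntermediateField.subset_adjoin _ _ ⟨⟨i₀, (hG i₀ hi₀).1.eq⟩, rfl⟩)
    have h7 : (1 : Cardinal) ≤ Algebra.trdeg F (IntermediateField.adjoin F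
      (range fun i : {i // EQ (f i)} => f i t)) := by simpa using h6
    have h8 : ((n + 1 : ℕ) : Cardinal) = (n : Cardinal) + 1 := by push_cast; rfl
    rw [h8]
    exact (add_le_add_right h7 _).trans hadd
  · push Not at hQ
    have hnc : ∀ i, NonConst univ (f i) := fun i => pole_nonconst (h𝓜 _ (hf i)) (hQ i)
    obtain ⟨h5, -⟩ := hmain3 hn hnc
    have h6 : Nat.card {i // ¬ HasPole univ (f i)} = 0 := by
      have : IsEmpty {i // ¬ HasPole univ (f i)} := ⟨fun i => i.2 (hQ i.1)⟩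
      exact Nat.card_of_isEmpty
    rw [h6] at h5
    have h7 : n - 0 + min (0 + 1) 3 = n + 1 := by omega
    rwa [h7] at h5

end Pool.Agent.K9h26.GH
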