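import Pool.Agent.K9h26.GH.Asy
import Pool.Agent.K9h26.GE.Func

set_option autoImplicit false

/-!
Preparations for the functional theorem.
-/

namespace Pool.Agent.K9h26.GH

open Complex Filter Topology Bornology
open Pool.Agent.K9h26.GE (U Us U_open U_preconnected U_nonempty U_mono Slow XP poly_bd exp_kappa)

lemma gg_bd (α : ℤ) {M : ℝ} (hM : 0 < M) :
    ∃ C : ℝ, 0 ≤ C ∧ ∀ s : ℂ, 1 ≤ ‖s‖ → ‖gg α M s‖ ≤ C * ‖s‖ := by
  have hpi := Real.pi_pos
  set C₂ : ℝ := (|(α : ℝ)| + (α : ℝ) ^ 2) * (1 + |Real.log M| + Real.pi) with hC₂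
  refine ⟨(1 + C₂) / M, by positivity, fun s hs => ?_⟩
  have hn : 0 < ‖s‖ := by linarith
  have hs0 : s ≠ 0 := norm_pos_iff.1 hn
  have h1 : ‖ell M s‖ ≤ (1 + |Real.log M| + Real.pi) * ‖s‖ := by
    refine (norm_le_abs_re_add_abs_im _).trans ?_
    unfold ell
    rw [log_re, log_im, norm_div, norm_real, Real.norm_eq_abs, abs_of_pos hM,
      Real.log_div hn.ne' hM.ne']
    have e1 := abs_sub (Real.log ‖s‖) (Real.log M)
    have e2 : |Real.log ‖s‖| ≤ ‖s‖ := by
      rw [abs_of_nonneg (Real.log_nonneg hs)]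
      have := Real.log_le_sub_one_of_pos hn
      linarith
    have e3 := abs_arg_le_pi (s / M)
    have e4 : |Real.log M| ≤ |Real.log M| * ‖s‖ := le_mul_of_one_le_right (abs_nonneg _) hs
    have e5 : Real.pi ≤ Real.pi * ‖s‖ := le_mul_of_one_le_right hpi.le hs
    linarith
  have h2 : ‖ww α M s‖ ≤ C₂ := by
    refine (ww_bd α M hs).trans ?_
    rw [hC₂]
    apply mul_le_mul_of_nonneg_left _ (by positivity)
    rwa [div_le_iff₀ hn]
  rw [gg_eq α M hs0, norm_mul, norm_div, norm_real, Real.norm_eq_abs, abs_of_pos hM]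
  have h3 : ‖1 + ww α M s‖ ≤ 1 + C₂ := by
    refine (norm_add_le _ _).trans ?_
    rw [norm_one]
    linarith
  calc ‖s‖ / M * ‖1 + ww α M s‖ ≤ ‖s‖ / M * (1 + C₂) :=
        mul_le_mul_of_nonneg_left h3 (by positivity)
    _ = _ := by ring

lemma u_diff (α : ℤ) {M : ℝ} (hM : 0 < M) (u : ℂ) {f : ℂ → ℂ} (hf : Differentiable ℂ f) :
    DifferentiableOn ℂ (fun s => f (u * gg α M s)) (U 0) :=
  hf.comp_differentiableOn ((gg_diff α hM).const_mul u)

/-- functions of exponential type are slow in the new coordinate -/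
lemma slow_of_type (α : ℤ) {M : ℝ} (hM : 0 < M) (u : ℂ) {f : ℂ → ℂ} (hf : Differentiable ℂ f)
    {K D : ℝ} (hK : ∀ t, ‖f t‖ ≤ K * Real.exp (D * ‖t‖)) :
    Slow 1 (fun s => f (u * gg α M s)) := by
  obtain ⟨C, hC0, hC⟩ := gg_bd α hM
  refine ⟨(u_diff α hM u hf).mono (U_mono zero_le_one), fun T ε hε => ?_⟩
  set E : ℝ := |D| * ‖u‖ * C with hE
  have hE0 : 0 ≤ E := by positivity
  obtain ⟨C', hC'⟩ := exp_kappa (κ := 1 / 2) (by norm_num) (by norm_num) (2 * E) ε hε
  refine ⟨|K| * Real.exp (C' + E * |T|), fun s hs => ?_⟩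
  have hx1 : 1 < s.re := hs.1
  have hn1 : 1 ≤ ‖s‖ := by have := re_le_norm s; linarith
  have hn : ‖s‖ ≤ s.re + |T| := by
    have h8 := norm_le_abs_re_add_abs_im s
    rw [abs_of_pos (by linarith : 0 < s.re)] at h8
    have := hs.2
    have := le_abs_self T
    linarith
  simp only
  have h1 : D * ‖u * gg α M s‖ ≤ E * s.re + E * |T| := by
    rw [norm_mul]
    have h2 := hC s hn1
    calc D * (‖u‖ * ‖gg α M s‖) ≤ |D| * (‖u‖ * ‖gg α M s‖) :=
          mul_le_mul_of_nonneg_right (le_abs_self D) (by positivity)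
      _ ≤ |D| * (‖u‖ * (C * ‖s‖)) := by gcongr
      _ = E * ‖s‖ := by rw [hE]; ring
      _ ≤ E * (s.re + |T|) := mul_le_mul_of_nonneg_left hn hE0
      _ = _ := by ring
  have h3 : E * s.re ≤ 2 * E * Real.exp (1 / 2 * s.re) := by
    have h4 := Real.add_one_le_exp (1 / 2 * s.re)
    nlinarith
  have h5 := hC' s.re
  calc ‖f (u * gg α M s)‖ ≤ K * Real.exp (D * ‖u * gg α M s‖) := hK _
    _ ≤ |K| * Real.exp (D * ‖u * gg α M s‖) :=
        mul_le_mul_of_nonneg_right (le_abs_self K) (Real.exp_pos _).le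
    _ ≤ |K| * Real.exp (ε * Real.exp s.re + (C' + E * |T|)) := by
        apply mul_le_mul_of_nonneg_left _ (abs_nonneg _)
        apply Real.exp_le_exp.2
        linarith
    _ = _ := by rw [Real.exp_add]; ring

lemma xp_type {f : ℂ → ℂ} (hf : XP f) : ∃ K D : ℝ, ∀ t, ‖f t‖ ≤ K * Real.exp (D * ‖t‖) := by
  obtain ⟨W, p, h⟩ := hf
  have h1 : ∀ ω ∈ W, ∃ K : ℝ, 0 ≤ K ∧ ∀ t, ‖(p ω).eval t * exp (ω * t)‖ ≤
      K * Real.exp ((1 + ‖ω‖) * ‖t‖) := by
    intro ω _
    set n := (p ω).natDegree with hn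
    refine ⟨(∑ i ∈ Finset.range (n + 1), ‖(p ω).coeff i‖ * i.factorial),
      Finset.sum_nonneg fun i _ => by positivity, fun t => ?_⟩
    have e1 : ‖(p ω).eval t‖ ≤ (∑ i ∈ Finset.range (n + 1), ‖(p ω).coeff i‖ * i.factorial) *
        Real.exp ‖t‖ := by
      rw [Polynomial.eval_eq_sum_range, Finset.sum_mul]
      refine (norm_sum_le _ _).trans (Finset.sum_le_sum fun i _ => ?_)
      rw [norm_mul, norm_pow, mul_assoc]
      apply mul_le_mul_of_nonneg_left _ (norm_nonneg _)
      have h2 := Real.pow_div_factorial_le_exp ‖t‖ (norm_nonneg _) i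
      have hf : (0 : ℝ) < i.factorial := by exact_mod_cast i.factorial_pos
      rw [div_le_iff₀ hf] at h2
      linarith
    have e2 : ‖exp (ω * t)‖ ≤ Real.exp (‖ω‖ * ‖t‖) := by
      rw [norm_exp]
      apply Real.exp_le_exp.2
      exact (re_le_norm _).trans (norm_mul _ _).le
    rw [norm_mul]
    calc _ ≤ ((∑ i ∈ Finset.range (n + 1), ‖(p ω).coeff i‖ * i.factorial) *
        Real.exp ‖t‖) * Real.exp (‖ω‖ * ‖t‖) := mul_le_mul e1 e2 (norm_nonneg _) (by positivity)
      _ = _ := by rw [mul_assoc, ← Real.exp_add, add_mul, one_mul]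
  choose! K hK0 hK using h1
  refine ⟨∑ ω ∈ W, K ω, 1 + ∑ ω ∈ W, ‖ω‖, fun t => ?_⟩
  rw [h, Finset.sum_mul]
  refine (norm_sum_le _ _).trans (Finset.sum_le_sum fun ω hω => (hK ω hω t).trans ?_)
  apply mul_le_mul_of_nonneg_left _ (hK0 ω hω)
  apply Real.exp_le_exp.2
  apply mul_le_mul_of_nonneg_right _ (norm_nonneg _)
  have := Finset.single_le_sum (f := fun ω : ℂ => ‖ω‖) (fun _ _ => norm_nonneg _) hω
  linarith

/-- identity theorem in the new coordinate -/
lemma back (α : ℤ) {M : ℝ} (hM : 0 < M) {u : ℂ} (hu : u ≠ 0) {f : ℂ → ℂ}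
    (hf : Differentiable ℂ f) (h : ∀ s ∈ U 1, f (u * gg α M s) = 0) : ∀ t, f t = 0 := by
  have hd : DifferentiableOn ℂ (gg α M) (U 1) := (gg_diff α hM).mono (U_mono zero_le_one)
  obtain ⟨s₀, hs₀, hder⟩ : ∃ s₀ ∈ U 1, deriv (gg α M) s₀ ≠ 0 := by
    by_contra hcon
    push Not at hcon
    obtain ⟨s₁, hs₁⟩ := U_nonempty 1
    have hconst : ∀ s ∈ U 1, gg α M s = gg α M s₁ := fun s hs =>
      (U_open 1).is_const_of_deriv_eq_zero (U_preconnected 1) hd (fun x hx => hcon x hx) hs hs₁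
    have h1 := (gg_cob α hM 0).eventually (eventually_ne_cobounded (gg α M s₁))
    have h2 := (h1.and (st_pos 0 1))
    have hne : (St 0).NeBot := by
      have : Tendsto (fun x : ℝ => (x : ℂ)) atTop (St 0) := by
        rw [St, tendsto_inf]
        constructor
        · rw [tendsto_comap_iff]
          exact tendsto_id.congr fun x => by simp
        · rw [tendsto_principal]
          exact Eventually.of_forall fun x => by simp
      exact this.neBot
    obtain ⟨s, h3, h4⟩ := h2.exists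
    exact h3 (hconst s h4)
  have han : AnalyticAt ℂ (gg α M) s₀ := hd.analyticAt ((U_open 1).mem_nhds hs₀)
  have hmap := han.hasStrictDerivAt.map_nhds_eq hder
  have hev : ∀ᶠ s in 𝓝 s₀, f (u * gg α M s) = 0 := by
    filter_upwards [(U_open 1).mem_nhds hs₀] with s hs
    exact h s hs
  have hev2 : (fun x => f (u * x)) =ᶠ[𝓝 (gg α M s₀)] 0 := by
    rw [← hmap]
    exact eventually_map.2 hev
  have hg : Differentiable ℂ (fun x => f (u * x)) := hf.comp (by fun_prop)
  have ha : AnalyticOnNhd ℂ (fun x => f (u * x)) Set.univ :=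
    hg.differentiableOn.analyticOnNhd isOpen_univ
  have hz := ha.eqOn_zero_of_preconnected_of_eventuallyEq_zero isPreconnected_univ
    (Set.mem_univ _) hev2
  intro t
  have := hz (Set.mem_univ (u⁻¹ * t))
  simpa [mul_inv_cancel_left₀ hu] using this

lemma poly_ne (q : Polynomial ℂ) (hq : q ≠ 0) : ∀ᶠ x in cobounded ℂ, q.eval x ≠ 0 := by
  have h1 : {x : ℂ | q.eval x = 0}.Finite := by
    refine (q.roots.toFinset.finite_toSet).subset fun x hx => ?_
    simp only [Finset.mem_coe, Multiset.mem_toFinset]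
    exact (Polynomial.mem_roots hq).2 hx
  have h2 := h1.isBounded
  rw [← Bornology.isCobounded_compl_iff] at h2
  exact h2

/-- an entire rational function is a polynomial -/
lemma rat_entire (q p : Polynomial ℂ) (hq : q ≠ 0) {f : ℂ → ℂ} (hf : Differentiable ℂ f)
    (h : ∀ t, q.eval t * f t = p.eval t) : ∃ m : Polynomial ℂ, ∀ t, f t = m.eval t := by
  refine ⟨p / q, ?_⟩
  set m := p / q with hm
  set r := p % q with hr
  have hdiv : p = q * m + r := (EuclideanDomain.div_add_mod p q).symm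
  have hg : ∀ t, q.eval t * (f t - m.eval t) = r.eval t := by
    intro t
    have h1 := h t
    rw [hdiv, Polynomial.eval_add, Polynomial.eval_mul] at h1
    linear_combination h1
  have hdeg : r = 0 ∨ r.natDegree < q.natDegree := by
    rcases eq_or_ne r 0 with h0 | h0
    · exact Or.inl h0
    · exact Or.inr (Polynomial.natDegree_lt_natDegree h0 (EuclideanDomain.mod_lt p hq))
  have hd : Differentiable ℂ (fun t => f t - m.eval t) := hf.sub m.differentiable
  have hlim : Tendsto (fun t => f t - m.eval t) (cobounded ℂ) (𝓝 0) := by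
    rcases hdeg with h0 | h0
    · refine tendsto_const_nhds.congr' ?_
      filter_upwards [poly_ne q hq] with x hx
      have h1 := hg x
      rw [h0, Polynomial.eval_zero] at h1
      exact ((mul_eq_zero.1 h1).resolve_left hx).symm
    · obtain ⟨A, B, -, hB⟩ := rat_asy r q hq (-1) (by omega)
      have hinv : Tendsto (fun x : ℂ => x⁻¹) (cobounded ℂ) (𝓝 0) := tendsto_inv₀_cobounded
      have h1 := ((hB.mul hinv).add_const A).mul hinv
      rw [mul_zero] at h1
      refine h1.congr' ?_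
      filter_upwards [eventually_ne_cobounded (0 : ℂ), poly_ne q hq] with x hx hqx
      have h2 := hg x
      have h3 : f x - m.eval x = r.eval x / q.eval x := by
        rw [eq_div_iff hqx]
        linear_combination h2
      rw [h3]
      field_simp
      ring
  rw [Metric.cobounded_eq_cocompact] at hlim
  intro t
  have := hd.apply_eq_of_tendsto_cocompact t hlim
  exact sub_eq_zero.1 this

/-- the functions in the new coordinate -/
lemma main_asy {f : ℂ → ℂ} {W : Finset ℂ} {p : ℂ → Polynomial ℂ} {q : Polynomial ℂ} (hq : q ≠ 0)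
    (hf : ∀ t, q.eval t * f t = ∑ ω ∈ W, (p ω).eval t * exp (ω * t))
    (hp : ∀ ω ∈ W, p ω ≠ 0) {ω₀ : ℂ} {M : ℝ} (hM : 0 < M) {u : ℂ} (hu : u ≠ 0)
    (hω₀ : ω₀ * u = M) (hν : ∀ ν ∈ W, ν ≠ ω₀ → (ν * u).re < M) (α : ℤ)
    (hα : ω₀ ∈ W → ((p ω₀).natDegree : ℤ) - q.natDegree ≤ α) :
    ∃ A v : ℂ, (A = 0 ↔ ¬ (ω₀ ∈ W ∧ ((p ω₀).natDegree : ℤ) - q.natDegree = α)) ∧
      ∀ T : ℝ, Tendsto (fun s => (f (u * gg α M s) - A * exp s) * s / exp s) (St T) (𝓝 v) := by
  classical
  have hx : ∀ T, Tendsto (fun s => u * gg α M s) (St T) (cobounded ℂ) := fun T =>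
    (tendsto_mul_left_cobounded hu).comp (gg_cob α hM T)
  have hlow : ∀ T, Tendsto (fun s => ∑ ν ∈ W.erase ω₀, (p ν).eval (u * gg α M s) /
      q.eval (u * gg α M s) * exp ((ν * u) * gg α M s) * s / exp s) (St T) (𝓝 0) := by
    intro T
    have := tendsto_finsetSum (W.erase ω₀) (fun ν hν' => low_rat (p ν) q hq α hM hu
      (hν ν (Finset.mem_of_mem_erase hν') (Finset.ne_of_mem_erase hν')) T)
    simpa using this
  have hfx : ∀ T, ∀ᶠ s in St T, f (u * gg α M s) = ∑ ν ∈ W, (p ν).eval (u * gg α M s) /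
      q.eval (u * gg α M s) * exp ((ν * u) * gg α M s) := by
    intro T
    filter_upwards [(hx T).eventually (poly_ne q hq)] with s hs
    have h1 := hf (u * gg α M s)
    have h2 : f (u * gg α M s) = (∑ ω ∈ W, (p ω).eval (u * gg α M s) *
        exp (ω * (u * gg α M s))) / q.eval (u * gg α M s) := by
      rw [eq_div_iff hs, mul_comm]
      exact h1
    rw [h2, Finset.sum_div]
    refine Finset.sum_congr rfl fun ν _ => ?_
    rw [← mul_assoc ν]
    ring
  by_cases hW : ω₀ ∈ W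
  · obtain ⟨A, B, hA, hB⟩ := top_term (p ω₀) q hq α (hα hW) hM hu
    refine ⟨A, B, ?_, fun T => ?_⟩
    · rw [hA]
      have h1 := hα hW
      constructor
      · rintro (h2 | h2) ⟨-, h3⟩
        · exact hp ω₀ hW h2
        · omega
      · intro h2
        right
        have : ¬ ((p ω₀).natDegree : ℤ) - q.natDegree = α := fun h3 => h2 ⟨hW, h3⟩
        omega
    · have h1 := (hB T).add (hlow T)
      rw [add_zero] at h1
      refine h1.congr' ?_
      filter_upwards [hfx T] with s hs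
      rw [hs, ← Finset.add_sum_erase _ _ hW, hω₀, ← Finset.sum_div, ← Finset.sum_mul, ← add_div,
        ← add_mul]
      congr 2
      ring
  · refine ⟨0, 0, by simp [hW], fun T => ?_⟩
    refine (hlow T).congr' ?_
    filter_upwards [hfx T] with s hs
    rw [hs, Finset.erase_eq_of_notMem hW, ← Finset.sum_div, ← Finset.sum_mul, zero_mul, sub_zero]

end Pool.Agent.K9h26.GH
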