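import Pool.Agent.K9h26.GH.Base

set_option autoImplicit false

/-!
Slow factors of `1/Γ` for functions `a exp s + h s` with `h s = (v + o(1)) exp s / s`.
-/

namespace Pool.Agent.K9h26.GH

open Complex Filter Topology
open Pool.Agent.K9h26.GE
open Pool.Agent.W175.GF (Hp SlowH mn FJ S_SEP S_REG S_REGJ S_LAST Hp_re Hp_slit Hp_norm Hp_anti
  Hp_open mn_diff kap mn_eq SE)

/-- data for the theorem -/
structure DV (r : ℝ) (ι : Type) [Fintype ι] (a v : ι → ℂ) (h : ι → ℂ → ℂ) : Prop where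
  hr : 1 ≤ r
  ha : ∀ i, a i ≠ 0
  hh : ∀ i, DifferentiableOn ℂ (h i) (U r)
  hK : ∀ i, Tends r (v i) (h i)
  hH : ∀ i j, i ≠ j → ∀ p q : ℚ,
    ¬ ∀ s ∈ U r, a i * exp s + h i s = p * (a j * exp s + h j s) + q

variable {r : ℝ} {ι : Type} [Fintype ι] {a v : ι → ℂ} {h : ι → ℂ → ℂ}

lemma DV.sm (D : DV r ι a v h) (i : ι) : Small r (h i) := (D.hK i).small D.hr

lemma facts (D : DV r ι a v h) (ζ : ℝ) (i : ι) (ε : ℝ) (hε : 0 < ε) :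
    ∃ C : ℝ, 0 ≤ C ∧ ∀ τ : ℂ, Real.exp r < ‖τ‖ → ‖h i (sg ζ τ)‖ ≤ ε * ‖τ‖ + C ∧
      ‖h i (sg ζ τ) * log τ - v i * cis ζ * τ‖ ≤ ε * ‖τ‖ + C := by
  obtain ⟨C₁, h1⟩ := D.sm i (Real.pi + |ζ|) (ε / (2 * (1 + |ζ|))) (by positivity)
  obtain ⟨C₂, h2⟩ := D.hK i (Real.pi + |ζ|) (ε / 2) (by positivity)
  refine ⟨(1 + |ζ|) * |C₁| + |C₂|, by positivity, fun τ hτ => ?_⟩
  have hτ0 : τ ≠ 0 := by
    rintro rfl
    rw [norm_zero] at hτ
    exact absurd hτ (not_lt.2 (Real.exp_pos r).le)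
  have hm := sg_mem (ζ := ζ) hτ
  have e1 := h1 _ hm
  have e2 := h2 _ hm
  rw [exp_sg_re hτ0] at e1 e2
  rw [exp_sg hτ0] at e2
  have hζ1 : 1 ≤ 1 + |ζ| := by linarith [abs_nonneg ζ]
  have hζ0 : 0 < 1 + |ζ| := by linarith
  have e3 : (1 + |ζ|) * ‖h i (sg ζ τ)‖ ≤ ε / 2 * ‖τ‖ + (1 + |ζ|) * |C₁| := by
    have h3 := mul_le_mul_of_nonneg_left e1 hζ0.le
    have h4 : (1 + |ζ|) * (ε / (2 * (1 + |ζ|)) * ‖τ‖ + C₁) = ε / 2 * ‖τ‖ + (1 + |ζ|) * C₁ := by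
      field_simp
    rw [h4] at h3
    have h5 := mul_le_mul_of_nonneg_left (le_abs_self C₁) hζ0.le
    linarith
  have hn := norm_nonneg (h i (sg ζ τ))
  constructor
  · have h6 : ‖h i (sg ζ τ)‖ ≤ (1 + |ζ|) * ‖h i (sg ζ τ)‖ := le_mul_of_one_le_left hn hζ1
    have h7 := abs_nonneg C₂
    have h8 : 0 ≤ ε * ‖τ‖ := by positivity
    linarith
  · have e4 : h i (sg ζ τ) * log τ - v i * cis ζ * τ =
        (h i (sg ζ τ) * sg ζ τ - v i * (cis ζ * τ)) - h i (sg ζ τ) * (ζ * I) := by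
      unfold sg
      ring
    rw [e4]
    refine (norm_sub_le _ _).trans ?_
    have h9 : ‖h i (sg ζ τ) * (ζ * I)‖ = |ζ| * ‖h i (sg ζ τ)‖ := by
      rw [norm_mul, norm_mul, norm_I, norm_real, Real.norm_eq_abs, mul_one, mul_comm]
    rw [h9]
    have h10 := le_abs_self C₂
    linarith

/-- slow factor on a regular fan -/
lemma slow_reg (hR : S_REG) (D : DV r ι a v h) (ζ : ℝ) (i : ι) {ψ₁ ψ₂ θ : ℝ}
    (hθ0 : 0 < θ) (hθ : θ ≤ Real.pi / 4) (h0 : ∀ ψ ∈ Set.Ioo ψ₁ ψ₂, |ψ| + θ < Real.pi / 2)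
    (hb : |arg (a i * cis ζ)| ≤ Real.pi / 2)
    (hψ : ∀ ψ ∈ Set.Ioo ψ₁ ψ₂, |arg (a i * cis ζ) + ψ| + θ < Real.pi / 2) :
    ∃ ρ₀ : ℝ, 1 ≤ ρ₀ ∧ ∀ ρ, ρ₀ ≤ ρ → Real.exp r ≤ ρ →
    SlowH ψ₁ ψ₂ ρ (fun τ => (Gamma (a i * exp (sg ζ τ) + h i (sg ζ τ)))⁻¹ *
      exp (mn (a i * cis ζ) τ + v i * cis ζ * τ)) := by
  have hpi := Real.pi_pos
  have hs0 : 0 < Real.sin θ := Real.sin_pos_of_pos_of_lt_pi hθ0 (by linarith)
  set b : ℂ := a i * cis ζ with hbd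
  have hb0 : b ≠ 0 := mul_ne_zero (D.ha i) (cis_ne ζ)
  have hbn : 0 < ‖b‖ := norm_pos_iff.2 hb0
  obtain ⟨C₀, hC₀, hf0⟩ := facts D ζ i (‖b‖ * Real.sin θ / 4) (by positivity)
  refine ⟨max 1 (max (4 / Real.sin θ) (4 * C₀ / (‖b‖ * Real.sin θ))), le_max_left _ _,
    fun ρ hρ hρ2 => ?_⟩
  have hρ1 : 1 ≤ ρ := (le_max_left _ _).trans hρ
  have hρ3 : 4 / Real.sin θ ≤ ρ := ((le_max_left _ _).trans (le_max_right _ _)).trans hρ
  have hρ4 : 4 * C₀ / (‖b‖ * Real.sin θ) ≤ ρ := ((le_max_right _ _).trans (le_max_right _ _)).trans hρ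
  have hρ0 : 0 ≤ ρ := by linarith
  intro ψ hψ0
  have hψ' : |ψ| < Real.pi / 2 := by linarith [h0 ψ hψ0]
  have hnorm : ∀ τ ∈ Hp ψ ρ, ρ < ‖τ‖ := fun τ hτ => Hp_norm hτ
  have hslit : ∀ τ ∈ Hp ψ ρ, τ ∈ slitPlane := fun τ hτ => Hp_slit hψ' hρ0 hτ
  have hsd : DifferentiableOn ℂ (sg ζ) (Hp ψ ρ) := (sg_diff ζ).mono hslit
  have hmemU : ∀ τ ∈ Hp ψ ρ, sg ζ τ ∈ U r := fun τ hτ =>
    sg_memU (lt_of_le_of_lt hρ2 (hnorm τ hτ))
  constructor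
  · apply DifferentiableOn.mul
    · apply Complex.differentiable_one_div_Gamma.comp_differentiableOn
      apply DifferentiableOn.add
      · apply DifferentiableOn.const_mul
        exact hsd.cexp
      · exact (D.hh i).comp hsd hmemU
    · apply DifferentiableOn.cexp
      apply DifferentiableOn.add ((mn_diff _).mono hslit)
      exact (differentiableOn_id).const_mul _
  · intro ε hε
    obtain ⟨A, hA0, hA⟩ := shift hb0 hθ0 hθ (h0 ψ hψ0)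
    obtain ⟨C₁, hC₁0, hf1⟩ := facts D ζ i (ε / (4 * (A + 1))) (by positivity)
    have hb1 := hψ ψ hψ0
    have h0ψ := h0 ψ hψ0
    have hp1 : |ψ + θ| < Real.pi / 2 := by
      have := abs_add_le ψ θ; rw [abs_of_pos hθ0] at this; linarith
    have hp2 : |ψ - θ| < Real.pi / 2 := by
      have := abs_sub ψ θ; rw [abs_of_pos hθ0] at this; linarith
    have hq1 : |arg b + (ψ + θ)| < Real.pi / 2 := by
      have := abs_add_le (arg b + ψ) θ; rw [abs_of_pos hθ0, add_assoc] at this; linarith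
    have hq2 : |arg b + (ψ - θ)| < Real.pi / 2 := by
      have := abs_sub (arg b + ψ) θ; rw [abs_of_pos hθ0, add_sub_assoc] at this; linarith
    obtain ⟨K₁, hK₁⟩ := hR b (ψ + θ) 0 0 hb0 hb hp1 hq1 le_rfl one_pos (ε / 4) (by positivity)
    obtain ⟨K₂, hK₂⟩ := hR b (ψ - θ) 0 0 hb0 hb hp2 hq2 le_rfl one_pos (ε / 4) (by positivity)
    refine ⟨(|K₁| + |K₂|) * Real.exp ((A + 1) * C₁), fun τ hτ => ?_⟩
    have hτ1 : ρ < ‖τ‖ := hnorm τ hτ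
    have hτn : 0 < ‖τ‖ := by linarith
    have hτ0 : τ ≠ 0 := norm_pos_iff.1 hτn
    have hτr : Real.exp r < ‖τ‖ := lt_of_le_of_lt hρ2 hτ1
    obtain ⟨f1, f2⟩ := hf1 τ hτr
    obtain ⟨g1, -⟩ := hf0 τ hτr
    set η : ℂ := h i (sg ζ τ) with hη
    have hηs : ‖η‖ ≤ ‖b‖ * (Real.sin θ / 2) * ‖τ‖ := by
      have h1 : C₀ ≤ ‖b‖ * Real.sin θ / 4 * ‖τ‖ := by
        rw [div_le_iff₀ (by positivity)] at hρ4
        have h2 : ρ * (‖b‖ * Real.sin θ) ≤ ‖τ‖ * (‖b‖ * Real.sin θ) :=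
          mul_le_mul_of_nonneg_right hτ1.le (by positivity)
        linarith
      linarith
    obtain ⟨ψ', hψ'', hm2, hmn, hn2⟩ := hA τ (Hp_anti hρ0 hτ) η hηs
    have hm1 : τ + η / b ∈ Hp ψ' 1 := by
      apply Hp_anti _ hm2
      rw [div_le_iff₀ hs0] at hρ3
      have h2 : ρ * Real.sin θ ≤ ‖τ‖ * Real.sin θ := mul_le_mul_of_nonneg_right hτ1.le hs0.le
      linarith
    have hG : ‖(Gamma (b * (τ + η / b)))⁻¹ * exp (mn b (τ + η / b))‖ ≤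
        (|K₁| + |K₂|) * Real.exp (ε / 2 * ‖τ‖) := by
      have h3 : Real.exp (ε / 4 * ‖τ + η / b‖) ≤ Real.exp (ε / 2 * ‖τ‖) := by
        apply Real.exp_le_exp.2
        have := mul_le_mul_of_nonneg_left hn2 (by positivity : 0 ≤ ε / 4)
        linarith
      have h5 : ∀ K : ℝ, |K| ≤ |K₁| + |K₂| → ‖(Gamma (b * (τ + η / b) + 0))⁻¹ *
          exp (mn b (τ + η / b))‖ ≤ K * Real.exp (ε / 4 * ‖τ + η / b‖) →
          ‖(Gamma (b * (τ + η / b)))⁻¹ * exp (mn b (τ + η / b))‖ ≤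
          (|K₁| + |K₂|) * Real.exp (ε / 2 * ‖τ‖) := by
        intro K hK h4
        rw [add_zero] at h4
        calc _ ≤ K * Real.exp (ε / 4 * ‖τ + η / b‖) := h4
          _ ≤ |K| * Real.exp (ε / 4 * ‖τ + η / b‖) :=
            mul_le_mul_of_nonneg_right (le_abs_self K) (Real.exp_pos _).le
          _ ≤ (|K₁| + |K₂|) * Real.exp (ε / 2 * ‖τ‖) :=
            mul_le_mul hK h3 (Real.exp_pos _).le (by positivity)
      rcases hψ'' with h4 | h4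
      · rw [h4] at hm1
        exact h5 K₁ (le_add_of_nonneg_right (abs_nonneg _)) (hK₁ _ hm1 0 (by simp))
      · rw [h4] at hm1
        exact h5 K₂ (le_add_of_nonneg_left (abs_nonneg _)) (hK₂ _ hm1 0 (by simp))
    have hbη : b * (τ + η / b) = a i * exp (sg ζ τ) + η := by
      rw [exp_sg hτ0, mul_add, mul_div_cancel₀ _ hb0, hbd]
      ring
    rw [hbη] at hG
    have hexp : exp (mn b τ + v i * cis ζ * τ) = exp (mn b (τ + η / b)) *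
        exp (-(mn b (τ + η / b) - mn b τ - η * log τ) - (η * log τ - v i * cis ζ * τ)) := by
      rw [← exp_add]
      congr 1
      ring
    have hE : ‖exp (-(mn b (τ + η / b) - mn b τ - η * log τ) - (η * log τ - v i * cis ζ * τ))‖ ≤
        Real.exp (ε / 2 * ‖τ‖ + (A + 1) * C₁) := by
      rw [norm_exp]
      apply Real.exp_le_exp.2
      refine (re_le_norm _).trans ((norm_sub_le _ _).trans ?_)
      rw [norm_neg]
      have h6 : A * ‖η‖ ≤ A * (ε / (4 * (A + 1)) * ‖τ‖ + C₁) := mul_le_mul_of_nonneg_left f1 hA0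
      have h7 : (A + 1) * (ε / (4 * (A + 1)) * ‖τ‖ + C₁) = ε / 4 * ‖τ‖ + (A + 1) * C₁ := by
        field_simp
      have h8 : 0 ≤ ε / 4 * ‖τ‖ := by positivity
      linarith
    simp only
    rw [hexp, ← mul_assoc, norm_mul]
    calc _ ≤ ((|K₁| + |K₂|) * Real.exp (ε / 2 * ‖τ‖)) * Real.exp (ε / 2 * ‖τ‖ + (A + 1) * C₁) :=
          mul_le_mul hG hE (norm_nonneg _) (by positivity)
      _ = _ := by
          rw [mul_assoc, ← Real.exp_add, mul_assoc, ← Real.exp_add]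
          congr 2
          ring

/-- slow factor beyond the ray of poles -/
lemma slow_J (hJ : S_REGJ) (D : DV r ι a v h) (ζ : ℝ) (i : ι) {β : ℝ}
    (hβ : 0 < β) (hb : a i * cis ζ = β * I) {ψ₁ ψ₂ θ : ℝ} (hθ0 : 0 < θ) (hθ : θ ≤ Real.pi / 4)
    (h1 : θ < ψ₁) (h12 : ψ₁ < ψ₂) (h2 : ψ₂ + θ < Real.pi / 2) :
    ∃ ρ₀ : ℝ, 1 ≤ ρ₀ ∧ ∀ ρ, ρ₀ ≤ ρ → Real.exp r ≤ ρ →
    SlowH ψ₁ ψ₂ ρ (fun τ => FJ (a i * exp (sg ζ τ) + h i (sg ζ τ)) *
      exp (mn (a i * cis ζ) τ + v i * cis ζ * τ)) ∧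
    ∀ ψ ∈ Set.Ioo ψ₁ ψ₂, ∀ τ ∈ Hp ψ ρ, ∀ n : ℕ, a i * exp (sg ζ τ) + h i (sg ζ τ) ≠ n := by
  have hpi := Real.pi_pos
  have hs0 : 0 < Real.sin θ := Real.sin_pos_of_pos_of_lt_pi hθ0 (by linarith)
  set b : ℂ := a i * cis ζ with hbd
  have hb0 : b ≠ 0 := mul_ne_zero (D.ha i) (cis_ne ζ)
  have hbn : 0 < ‖b‖ := norm_pos_iff.2 hb0
  obtain ⟨C₀, hC₀, hf0⟩ := facts D ζ i (‖b‖ * Real.sin θ / 4) (by positivity)
  obtain ⟨ρJ, hρJ1, hnJ, hbdJ⟩ := hJ β 0 0 (ψ₁ - θ) (ψ₂ + θ) hβ (by linarith) (by linarith) h2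
    le_rfl one_pos
  refine ⟨max 1 (max (4 * ρJ / Real.sin θ) (4 * C₀ / (‖b‖ * Real.sin θ))), le_max_left _ _,
    fun ρ hρ hρ2 => ?_⟩
  have hρ1 : 1 ≤ ρ := (le_max_left _ _).trans hρ
  have hρ3 : 4 * ρJ / Real.sin θ ≤ ρ := ((le_max_left _ _).trans (le_max_right _ _)).trans hρ
  have hρ4 : 4 * C₀ / (‖b‖ * Real.sin θ) ≤ ρ := ((le_max_right _ _).trans (le_max_right _ _)).trans hρ
  have hρ0 : 0 ≤ ρ := by linarith
  have hψ0 : ∀ ψ ∈ Set.Ioo ψ₁ ψ₂, |ψ| + θ < Real.pi / 2 := by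
    intro ψ hψ
    rw [abs_of_pos (by linarith [hψ.1])]
    linarith [hψ.2]
  -- the moved point
  have hmove : ∀ ψ ∈ Set.Ioo ψ₁ ψ₂, ∀ τ ∈ Hp ψ ρ, ‖h i (sg ζ τ)‖ ≤ ‖b‖ * (Real.sin θ / 2) * ‖τ‖ ∧
      ∀ ψ' : ℝ, (ψ' = ψ + θ ∨ ψ' = ψ - θ) →
      (τ + h i (sg ζ τ) / b) ∈ Hp ψ' (Real.sin θ / 4 * ‖τ‖) →
      ψ' ∈ Set.Icc (ψ₁ - θ) (ψ₂ + θ) ∧ (τ + h i (sg ζ τ) / b) ∈ Hp ψ' ρJ := by
    intro ψ hψ τ hτ
    have hτ1 : ρ < ‖τ‖ := Hp_norm hτ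
    obtain ⟨g1, -⟩ := hf0 τ (lt_of_le_of_lt hρ2 hτ1)
    constructor
    · have h1 : C₀ ≤ ‖b‖ * Real.sin θ / 4 * ‖τ‖ := by
        rw [div_le_iff₀ (by positivity)] at hρ4
        have h2 : ρ * (‖b‖ * Real.sin θ) ≤ ‖τ‖ * (‖b‖ * Real.sin θ) :=
          mul_le_mul_of_nonneg_right hτ1.le (by positivity)
        linarith
      linarith
    · intro ψ' hψ' hm
      constructor
      · rcases hψ' with h4 | h4
        · rw [h4]; exact ⟨by linarith [hψ.1], by linarith [hψ.2]⟩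
        · rw [h4]; exact ⟨by linarith [hψ.1], by linarith [hψ.2]⟩
      · apply Hp_anti _ hm
        rw [div_le_iff₀ hs0] at hρ3
        have h2 : ρ * Real.sin θ ≤ ‖τ‖ * Real.sin θ := mul_le_mul_of_nonneg_right hτ1.le hs0.le
        linarith
  have hbη : ∀ τ : ℂ, τ ≠ 0 → b * (τ + h i (sg ζ τ) / b) = a i * exp (sg ζ τ) + h i (sg ζ τ) := by
    intro τ hτ0
    rw [exp_sg hτ0, mul_add, mul_div_cancel₀ _ hb0, hbd]
    ring
  have hn' : ∀ ψ ∈ Set.Ioo ψ₁ ψ₂, ∀ τ ∈ Hp ψ ρ, ∀ n : ℕ,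
      a i * exp (sg ζ τ) + h i (sg ζ τ) ≠ n := by
    intro ψ hψ τ hτ n
    have hτ1 : ρ < ‖τ‖ := Hp_norm hτ
    have hτ0 : τ ≠ 0 := norm_pos_iff.1 (by linarith)
    obtain ⟨A, hA0, hA⟩ := shift hb0 hθ0 hθ (hψ0 ψ hψ)
    obtain ⟨m1, m2⟩ := hmove ψ hψ τ hτ
    obtain ⟨ψ', hψ'', hm2, -, -⟩ := hA τ (Hp_anti hρ0 hτ) _ m1
    obtain ⟨m3, m4⟩ := m2 ψ' hψ'' hm2
    have h5 := hnJ ψ' m3 _ m4 0 (by simp) n
    rwa [add_zero, ← hb, hbη τ hτ0] at h5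
  refine ⟨?_, hn'⟩
  intro ψ hψ
  have hψ' : |ψ| < Real.pi / 2 := by linarith [hψ0 ψ hψ]
  have hslit : ∀ τ ∈ Hp ψ ρ, τ ∈ slitPlane := fun τ hτ => Hp_slit hψ' hρ0 hτ
  have hsd : DifferentiableOn ℂ (sg ζ) (Hp ψ ρ) := (sg_diff ζ).mono hslit
  have hmemU : ∀ τ ∈ Hp ψ ρ, sg ζ τ ∈ U r := fun τ hτ =>
    sg_memU (lt_of_le_of_lt hρ2 (Hp_norm hτ))
  have hzd : DifferentiableOn ℂ (fun τ => a i * exp (sg ζ τ) + h i (sg ζ τ)) (Hp ψ ρ) := by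
    apply DifferentiableOn.add
    · apply DifferentiableOn.const_mul
      exact hsd.cexp
    · exact (D.hh i).comp hsd hmemU
  constructor
  · apply DifferentiableOn.mul
    · unfold FJ
      apply DifferentiableOn.div_const
      apply DifferentiableOn.mul
      · apply DifferentiableOn.mul hzd
        intro τ hτ
        have h6 : DifferentiableAt ℂ Gamma (-(a i * exp (sg ζ τ) + h i (sg ζ τ))) := by
          apply differentiableAt_Gamma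
          intro n hn2
          exact hn' ψ hψ τ hτ n (neg_injective hn2)
        exact h6.comp_differentiableWithinAt τ (hzd.neg τ hτ)
      · exact (hzd.const_mul _).neg.cexp
    · apply DifferentiableOn.cexp
      apply DifferentiableOn.add ((mn_diff _).mono hslit)
      exact (differentiableOn_id).const_mul _
  · intro ε hε
    obtain ⟨A, hA0, hA⟩ := shift hb0 hθ0 hθ (hψ0 ψ hψ)
    obtain ⟨C₁, hC₁0, hf1⟩ := facts D ζ i (ε / (4 * (A + 1))) (by positivity)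
    obtain ⟨K₁, hK₁⟩ := hbdJ (ε / 4) (by positivity)
    refine ⟨|K₁| * Real.exp ((A + 1) * C₁), fun τ hτ => ?_⟩
    have hτ1 : ρ < ‖τ‖ := Hp_norm hτ
    have hτn : 0 < ‖τ‖ := by linarith
    have hτ0 : τ ≠ 0 := norm_pos_iff.1 hτn
    obtain ⟨f1, f2⟩ := hf1 τ (lt_of_le_of_lt hρ2 hτ1)
    obtain ⟨m1, m2⟩ := hmove ψ hψ τ hτ
    obtain ⟨ψ', hψ'', hm2, hmn, hn2⟩ := hA τ (Hp_anti hρ0 hτ) _ m1
    obtain ⟨m3, m4⟩ := m2 ψ' hψ'' hm2
    have hG := hK₁ ψ' m3 _ m4 0 (by simp)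
    rw [add_zero, ← hb, hbη τ hτ0] at hG
    set η : ℂ := h i (sg ζ τ) with hη
    have hG2 : ‖FJ (a i * exp (sg ζ τ) + η) * exp (mn b (τ + η / b))‖ ≤
        |K₁| * Real.exp (ε / 2 * ‖τ‖) := by
      have h3 : Real.exp (ε / 4 * ‖τ + η / b‖) ≤ Real.exp (ε / 2 * ‖τ‖) := by
        apply Real.exp_le_exp.2
        have := mul_le_mul_of_nonneg_left hn2 (by positivity : 0 ≤ ε / 4)
        linarith
      calc _ ≤ K₁ * Real.exp (ε / 4 * ‖τ + η / b‖) := hG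
        _ ≤ |K₁| * Real.exp (ε / 4 * ‖τ + η / b‖) :=
          mul_le_mul_of_nonneg_right (le_abs_self _) (Real.exp_pos _).le
        _ ≤ |K₁| * Real.exp (ε / 2 * ‖τ‖) := mul_le_mul_of_nonneg_left h3 (abs_nonneg _)
    have hexp : exp (mn b τ + v i * cis ζ * τ) = exp (mn b (τ + η / b)) *
        exp (-(mn b (τ + η / b) - mn b τ - η * log τ) - (η * log τ - v i * cis ζ * τ)) := by
      rw [← exp_add]
      congr 1
      ring
    have hE : ‖exp (-(mn b (τ + η / b) - mn b τ - η * log τ) - (η * log τ - v i * cis ζ * τ))‖ ≤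
        Real.exp (ε / 2 * ‖τ‖ + (A + 1) * C₁) := by
      rw [norm_exp]
      apply Real.exp_le_exp.2
      refine (re_le_norm _).trans ((norm_sub_le _ _).trans ?_)
      rw [norm_neg]
      have h6 : A * ‖η‖ ≤ A * (ε / (4 * (A + 1)) * ‖τ‖ + C₁) := mul_le_mul_of_nonneg_left f1 hA0
      have h7 : (A + 1) * (ε / (4 * (A + 1)) * ‖τ‖ + C₁) = ε / 4 * ‖τ‖ + (A + 1) * C₁ := by
        field_simp
      have h8 : 0 ≤ ε / 4 * ‖τ‖ := by positivity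
      linarith
    simp only
    rw [hexp, ← mul_assoc, norm_mul]
    calc _ ≤ (|K₁| * Real.exp (ε / 2 * ‖τ‖)) * Real.exp (ε / 2 * ‖τ‖ + (A + 1) * C₁) :=
          mul_le_mul hG2 hE (norm_nonneg _) (by positivity)
      _ = _ := by
          rw [mul_assoc, ← Real.exp_add, mul_assoc, ← Real.exp_add]
          congr 2
          ring

end Pool.Agent.K9h26.GH
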